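import Mathlib

set_option autoImplicit false
set_option linter.all false

namespace Pool.Agent.WHC

open Matrix

section
variable {ι : Type*} [Fintype ι] [DecidableEq ι] (A : Matrix ι ι ℝ) (hA : A.IsHermitian)

/-- coordinates in the eigenbasis -/
noncomputable def co (x : ι → ℝ) : ι → ℝ := (hA.eigenvectorUnitary : Matrix ι ι ℝ)ᵀ *ᵥ x

theorem co_quad (x : ι → ℝ) :
    x ⬝ᵥ (A *ᵥ x) = ∑ i, hA.eigenvalues i * (co A hA x i) ^ 2 := by
  have hs := hA.spectral_theorem
  rw [Unitary.conjStarAlgAut_apply] at hs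
  have hU : (star (hA.eigenvectorUnitary : Matrix ι ι ℝ)) =
      (hA.eigenvectorUnitary : Matrix ι ι ℝ)ᵀ := by
    rw [Matrix.star_eq_conjTranspose, Matrix.conjTranspose_eq_transpose_of_trivial]
  rw [show (A *ᵥ x) = ((hA.eigenvectorUnitary : Matrix ι ι ℝ) *
    diagonal ((RCLike.ofReal : ℝ → ℝ) ∘ hA.eigenvalues) *
    (hA.eigenvectorUnitary : Matrix ι ι ℝ)ᵀ) *ᵥ x from by
      conv_lhs => rw [hs]
      rw [← hU]]
  rw [← Matrix.mulVec_mulVec, ← Matrix.mulVec_mulVec, Matrix.dotProduct_mulVec,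
    ← Matrix.mulVec_transpose]
  unfold co
  rw [dotProduct]
  refine Finset.sum_congr rfl (fun i _ => ?_)
  rw [Matrix.mulVec_diagonal]
  simp
  ring

theorem co_norm (x : ι → ℝ) : x ⬝ᵥ x = ∑ i, (co A hA x i) ^ 2 := by
  have h1 : (hA.eigenvectorUnitary : Matrix ι ι ℝ) * (hA.eigenvectorUnitary : Matrix ι ι ℝ)ᵀ = 1 := by
    have hU : (star (hA.eigenvectorUnitary : Matrix ι ι ℝ)) =
        (hA.eigenvectorUnitary : Matrix ι ι ℝ)ᵀ := by
      rw [Matrix.star_eq_conjTranspose, Matrix.conjTranspose_eq_transpose_of_trivial]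
    rw [← hU]
    exact Unitary.coe_mul_star_self hA.eigenvectorUnitary
  have h2 : x = (hA.eigenvectorUnitary : Matrix ι ι ℝ) *ᵥ (co A hA x) := by
    unfold co
    rw [Matrix.mulVec_mulVec, h1, Matrix.one_mulVec]
  conv_lhs => rhs; rw [h2]
  rw [Matrix.dotProduct_mulVec, ← Matrix.mulVec_transpose]
  rw [dotProduct]
  refine Finset.sum_congr rfl (fun i _ => ?_)
  unfold co
  ring

/-- If the quadratic form is at most `t ‖·‖²` on an `|κ|`-dimensional space, then at least `|κ|`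
eigenvalues, counted with multiplicity, are at most `t`. -/
theorem card_eig_le {κ : Type*} [Fintype κ] (T : (κ → ℝ) →ₗ[ℝ] (ι → ℝ)) (t : ℝ)
    (hinj : ∀ c, T c = 0 → c = 0)
    (hq : ∀ c, T c ⬝ᵥ (A *ᵥ T c) ≤ t * (T c ⬝ᵥ T c)) :
    Fintype.card κ ≤ (Finset.univ.filter (fun i => hA.eigenvalues i ≤ t)).card := by
  classical
  by_contra hlt
  push Not at hlt
  let J : Finset ι := Finset.univ.filter (fun i => hA.eigenvalues i ≤ t)
  let L : (κ → ℝ) →ₗ[ℝ] (J → ℝ) :=
    (LinearMap.funLeft ℝ ℝ (fun j : J => (j : ι))).comp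
      ((Matrix.mulVecLin (hA.eigenvectorUnitary : Matrix ι ι ℝ)ᵀ).comp T)
  have hker : LinearMap.ker L ≠ ⊥ := by
    apply LinearMap.ker_ne_bot_of_finrank_lt
    rw [Module.finrank_fintype_fun_eq_card, Module.finrank_fintype_fun_eq_card,
      Fintype.card_coe]
    exact hlt
  obtain ⟨c, hc, hc0⟩ := (Submodule.ne_bot_iff _).1 hker
  have hz : ∀ i ∈ J, co A hA (T c) i = 0 := by
    intro i hi
    have := congrFun (LinearMap.mem_ker.1 hc) ⟨i, hi⟩
    simpa [L, co, Matrix.mulVec_transpose] using this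
  have hT : T c ≠ 0 := fun h => hc0 (hinj c h)
  have h1 := hq c
  rw [co_quad A hA, co_norm A hA, Finset.mul_sum] at h1
  have hle : ∀ i ∈ (Finset.univ : Finset ι),
      t * (co A hA (T c) i) ^ 2 ≤ hA.eigenvalues i * (co A hA (T c) i) ^ 2 := by
    intro i _
    by_cases hi : i ∈ J
    · rw [hz i hi]; simp
    · have : t < hA.eigenvalues i := by
        by_contra hcon
        exact hi (Finset.mem_filter.2 ⟨Finset.mem_univ i, not_lt.1 hcon⟩)
      exact mul_le_mul_of_nonneg_right this.le (sq_nonneg _)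
  have heq := (Finset.sum_eq_sum_iff_of_le hle).1 (le_antisymm (Finset.sum_le_sum hle) h1)
  have hall : ∀ i, co A hA (T c) i = 0 := by
    intro i
    by_cases hi : i ∈ J
    · exact hz i hi
    · have : t < hA.eigenvalues i := by
        by_contra hcon
        exact hi (Finset.mem_filter.2 ⟨Finset.mem_univ i, not_lt.1 hcon⟩)
      have h2 := heq i (Finset.mem_univ i)
      have h3 : (hA.eigenvalues i - t) * (co A hA (T c) i) ^ 2 = 0 := by linarith
      rcases mul_eq_zero.1 h3 with h4 | h4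
      · linarith
      · exact pow_eq_zero_iff (two_ne_zero) |>.1 h4
  have hn : T c ⬝ᵥ T c = 0 := by
    rw [co_norm A hA]
    exact Finset.sum_eq_zero (fun i _ => by rw [hall i]; simp)
  exact hT (dotProduct_self_eq_zero.1 hn)

end

end Pool.Agent.WHC
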