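import Pool.Agent.WHC.Neck

set_option autoImplicit false
set_option linter.unusedSectionVars false

namespace Pool.Agent.WHC

open Relation

section
variable (k : ℕ) [NeZero k] [Fact (1 < k)]

/-- additive form of the move from the necklace -/
def Q (u v a b : ZMod k × Bool) (H : Cubic (ZMod k × Bool)) : Prop :=
  ∀ i j, H.m i j + E u a i j + E v b i j = nm k i j + E v a i j + E u b i j

variable {k}

theorem Q.swap {u v a b : ZMod k × Bool} {H : Cubic (ZMod k × Bool)} (h : Q k u v a b H) :
    Q k v u b a H := fun i j => by
  have := h i j
  omega

theorem Q.iso {u v a b : ZMod k × Bool} {H H' : Cubic (ZMod k × Bool)}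
    (τ : (ZMod k × Bool) ≃ (ZMod k × Bool)) (hτ : ∀ x y, nm k (τ x) (τ y) = nm k x y)
    (h : Q k u v a b H) (h' : Q k (τ u) (τ v) (τ a) (τ b) H') : Iso H H' := by
  refine ⟨τ, fun i j => ?_⟩
  have h1 := h i j
  have h2 := h' (τ i) (τ j)
  rw [hτ, E_map, E_map, E_map, E_map] at h2
  omega

/-- exchanging the two ends of a double edge, pointwise form -/
theorem swap_aux (i : ZMod k) (y : ZMod k × Bool) :
    (nm k (i, true) (Equiv.swap (i, false) (i, true) y) + E (i, false) (i - 1, true) (i, false) y
      + E (i, true) (i + 1, false) (i, false) y
      = nm k (i, false) y + E (i, true) (i - 1, true) (i, false) y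
      + E (i, false) (i + 1, false) (i, false) y) ∧
    (nm k (i, false) (Equiv.swap (i, false) (i, true) y) + E (i, false) (i - 1, true) (i, true) y
      + E (i, true) (i + 1, false) (i, true) y
      = nm k (i, true) y + E (i, true) (i - 1, true) (i, true) y
      + E (i, false) (i + 1, false) (i, true) y) := by
  have hne1 : (i - 1 : ZMod k) ≠ i := by
    intro hh
    exact one_ne k (by linear_combination -hh)
  have hne2 : (i + 1 : ZMod k) ≠ i := by
    intro hh
    exact one_ne k (by linear_combination hh)
  have hne1' : (i : ZMod k) ≠ i - 1 := hne1.symm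
  have hne2' : (i : ZMod k) ≠ i + 1 := hne2.symm
  by_cases hy1 : y = (i, false)
  · subst hy1
    rw [Equiv.swap_apply_left]
    constructor
    · simp [nm_ff, nm_tt, E, hne2']
    · simp [nm_ft, nm_tf, E, hne1', hne2']
  · by_cases hy2 : y = (i, true)
    · subst hy2
      rw [Equiv.swap_apply_right]
      constructor
      · simp [nm_ft, nm_tf, E, hne1', hne2']
      · simp [nm_ff, nm_tt, E, hne1']
    · rw [Equiv.swap_apply_of_ne_of_ne hy1 hy2, nm_t, nm_f]
      constructor
      · simp [E, hy1, hy2, hne1', hne2']
        ring
      · simp [E, hy1, hy2, hne1', hne2']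
        ring

/-- double edge, both outer edges exchanged: nothing changes -/
theorem Q.triv (i : ZMod k) {H : Cubic (ZMod k × Bool)}
    (h : Q k (i, false) (i, true) (i - 1, true) (i + 1, false) H) : Iso H (Neck k) := by
  refine ⟨Equiv.swap (i, false) (i, true), fun x y => ?_⟩
  have hq := h x y
  show nm k (Equiv.swap (i, false) (i, true) x) (Equiv.swap (i, false) (i, true) y) = H.m x y
  by_cases hx1 : x = (i, false)
  · subst hx1
    have := (swap_aux i y).1
    rw [Equiv.swap_apply_left]
    omega
  · by_cases hx2 : x = (i, true)
    · subst hx2
      have := (swap_aux i y).2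
      rw [Equiv.swap_apply_right]
      omega
    · by_cases hy1 : y = (i, false)
      · subst hy1
        have := (swap_aux i x).1
        rw [Equiv.swap_apply_left, nm_symm]
        have e1 := E_flip (i, false) (i - 1, true) (i, false) x
        have e2 := E_flip (i, true) (i + 1, false) (i, false) x
        have e3 := E_flip (i, true) (i - 1, true) (i, false) x
        have e4 := E_flip (i, false) (i + 1, false) (i, false) x
        have e5 := nm_symm k (i, false) x
        omega
      · by_cases hy2 : y = (i, true)
        · subst hy2
          have := (swap_aux i x).2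
          rw [Equiv.swap_apply_right, nm_symm]
          have e1 := E_flip (i, false) (i - 1, true) (i, true) x
          have e2 := E_flip (i, true) (i + 1, false) (i, true) x
          have e3 := E_flip (i, true) (i - 1, true) (i, true) x
          have e4 := E_flip (i, false) (i + 1, false) (i, true) x
          have e5 := nm_symm k (i, true) x
          omega
        · rw [Equiv.swap_apply_of_ne_of_ne hy1 hy2, Equiv.swap_apply_of_ne_of_ne hx1 hx2]
          simp only [E, hx1, hx2, hy1, hy2, false_and, and_false, or_false, if_false,
            add_zero] at hq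
          omega

/-- The neighbours of the necklace: the classification of the moves. `A` is the result of a move
on a single edge, `B` the result of a move on a double edge that creates a loop. -/
theorem classify {A B : Cubic (ZMod k × Bool)}
    (hA : Q k (0, true) (1, false) (0, false) (1, true) A)
    (hB : Q k (0, false) (0, true) (0, true) (1, false) B)
    {H : Cubic (ZMod k × Bool)} (hm : Move (Neck k) H) :
    Iso H (Neck k) ∨ Iso H A ∨ Iso H B := by
  obtain ⟨R, u, v, a, b, huv, hG, hH⟩ := hm
  have hG' : ∀ i j, nm k i j = R i j + E u v i j + E u a i j + E v b i j := hG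
  have hQ : Q k u v a b H := fun i j => by
    have h1 := hG' i j
    have h2 := hH i j
    omega
  have h1 := one_ne k
  -- the double edge case
  have dbl : ∀ (i : ZMod k) (a b : ZMod k × Bool),
      (∃ R : _ → _ → ℕ, ∀ x y, nm k x y = R x y + E (i, false) (i, true) x y
        + E (i, false) a x y + E (i, true) b x y) →
      Q k (i, false) (i, true) a b H → Iso H (Neck k) ∨ Iso H A ∨ Iso H B := by
    intro i a b hR hq
    obtain ⟨R, hR⟩ := hR
    have hne1 : (i : ZMod k) ≠ i + 1 := by
      intro hh
      exact h1 (by linear_combination -hh)
    have ha : 0 < nm k (i, false) a := by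
      rw [hR]; have := E_self (i, false) a; omega
    have hb : 0 < nm k (i, true) b := by
      rw [hR]; have := E_self (i, true) b; omega
    have ha' : a = (i, true) ∨ a = (i - 1, true) := by
      rw [nm_f] at ha
      by_contra hc
      push Not at hc
      simp [hc.1, hc.2] at ha
    have hb' : b = (i, false) ∨ b = (i + 1, false) := by
      rw [nm_t] at hb
      by_contra hc
      push Not at hc
      simp [hc.1, hc.2] at hb
    rcases ha' with rfl | rfl <;> rcases hb' with rfl | rfl
    · exfalso
      have h2 := hR (i, false) (i, true)
      rw [nm_ft] at h2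
      simp [E, hne1] at h2
    · right; right
      refine Q.iso (rot k (-i)) (nm_rot k (-i)) hq ?_
      simpa [rot] using hB
    · right; right
      refine Q.iso (rfl' k i) (nm_rfl k i) hq.swap ?_
      simpa [rfl'] using hB
    · left
      exact hq.triv i
  -- the single edge case
  have sgl : ∀ (i : ZMod k) (a b : ZMod k × Bool),
      (∃ R : _ → _ → ℕ, ∀ x y, nm k x y = R x y + E (i, true) (i + 1, false) x y
        + E (i, true) a x y + E (i + 1, false) b x y) →
      Q k (i, true) (i + 1, false) a b H → Iso H (Neck k) ∨ Iso H A ∨ Iso H B := by
    intro i a b hR hq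
    obtain ⟨R, hR⟩ := hR
    have hne1 : (i : ZMod k) ≠ i + 1 := by
      intro hh
      exact h1 (by linear_combination -hh)
    have hne2 : (i + 1 : ZMod k) ≠ i := hne1.symm
    have ha : 0 < nm k (i, true) a := by
      rw [hR]; have := E_self (i, true) a; omega
    have hb : 0 < nm k (i + 1, false) b := by
      rw [hR]; have := E_self (i + 1, false) b; omega
    have ha' : a = (i, false) ∨ a = (i + 1, false) := by
      rw [nm_t] at ha
      by_contra hc
      push Not at hc
      simp [hc.1, hc.2] at ha
    have hb' : b = (i + 1, true) ∨ b = (i, true) := by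
      rw [nm_f] at hb
      by_contra hc
      push Not at hc
      simp [hc.1, hc.2] at hb
    have huv1 := hR (i, true) (i + 1, false)
    rw [nm_tf] at huv1
    rcases ha' with rfl | rfl
    · rcases hb' with rfl | rfl
      · right; left
        refine Q.iso (rot k (-i)) (nm_rot k (-i)) hq ?_
        simpa [rot] using hA
      · exfalso
        simp [E, hne2] at huv1
    · exfalso
      simp [E, hne2] at huv1
      omega
  have he : 0 < nm k u v := by
    rw [hG']; have := E_self u v; omega
  obtain ⟨i, c⟩ := u
  obtain ⟨j, d⟩ := v
  cases c <;> cases d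
  · rw [nm_ff] at he
    omega
  · rw [nm_ft] at he
    by_cases hji : j = i
    · subst hji
      exact dbl j a b ⟨R, hG'⟩ hQ
    · have hij : i = j + 1 := by
        by_contra hc
        simp [hji, hc] at he
      subst hij
      refine sgl j b a ⟨R, fun x y => ?_⟩ hQ.swap
      rw [hG' x y, E_comm (j + 1, false) (j, true) x y]
      ring
  · rw [nm_tf] at he
    by_cases hji : j = i
    · subst hji
      refine dbl j b a ⟨R, fun x y => ?_⟩ hQ.swap
      rw [hG' x y, E_comm (j, true) (j, false) x y]
      ring
    · have hij : j = i + 1 := by
        by_contra hc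
        simp [hji, hc] at he
      subst hij
      exact sgl i a b ⟨R, hG'⟩ hQ
  · rw [nm_tt] at he
    omega

end

end Pool.Agent.WHC
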