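import Mathlib

/-!
# Cubic multigraphs, Whitehead moves, conductance
-/

set_option autoImplicit false

namespace Pool.Agent.WHC

open Relation

/-- The multigraph with the single edge `x y` (a loop if `x = y`), as a function counting
the edges between `i` and `j`. -/
def E {V : Type*} [DecidableEq V] (x y i j : V) : ℕ :=
  if (i = x ∧ j = y) ∨ (i = y ∧ j = x) then 1 else 0

/-- A cubic graph with vertex set `V`: a connected multigraph in which every vertex has degree
`3`; `m i j` is the number of edges joining `i` and `j` if `i ≠ j`, and `m i i` is the number of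
loops at `i` (a loop contributes `2` to the degree). -/
@[ext]
structure Cubic (V : Type*) [Fintype V] where
  m : V → V → ℕ
  symm : ∀ i j, m i j = m j i
  deg : ∀ i, (∑ j, m i j) + m i i = 3
  conn : ∀ i j, ReflTransGen (fun x y => 0 < m x y) i j

/-- Whitehead move: `G` contains the edge `e = u v` (not a loop), an edge `u a` and an edge
`v b` (three different edges; `R` is the rest of `G`), and `H` is obtained by replacing `u a`
and `v b` by `v a` and `u b`. -/
def Move {V : Type*} [Fintype V] [DecidableEq V] (G H : Cubic V) : Prop :=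
  ∃ (R : V → V → ℕ) (u v a b : V), u ≠ v ∧
    (∀ i j, G.m i j = R i j + E u v i j + E u a i j + E v b i j) ∧
    (∀ i j, H.m i j = R i j + E u v i j + E v a i j + E u b i j)

/-- Isomorphism of cubic graphs. -/
def Iso {V W : Type*} [Fintype V] [Fintype W] (G : Cubic V) (H : Cubic W) : Prop :=
  ∃ σ : V ≃ W, ∀ i j, H.m (σ i) (σ j) = G.m i j

theorem Iso.refl {V : Type*} [Fintype V] (G : Cubic V) : Iso G G :=
  ⟨Equiv.refl V, fun _ _ => rfl⟩

theorem Iso.symm {V W : Type*} [Fintype V] [Fintype W] {G : Cubic V} {H : Cubic W}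
    (h : Iso G H) : Iso H G := by
  obtain ⟨σ, hσ⟩ := h
  refine ⟨σ.symm, fun i j => ?_⟩
  have := hσ (σ.symm i) (σ.symm j)
  simpa using this.symm

theorem Iso.trans {V W U : Type*} [Fintype V] [Fintype W] [Fintype U] {G : Cubic V}
    {H : Cubic W} {K : Cubic U} (h : Iso G H) (h' : Iso H K) : Iso G K := by
  obtain ⟨σ, hσ⟩ := h
  obtain ⟨τ, hτ⟩ := h'
  refine ⟨σ.trans τ, fun i j => ?_⟩
  simp only [Equiv.trans_apply]
  rw [hτ, hσ]

/-- Isomorphism as an equivalence relation on the labelled `n`-vertex cubic graphs. -/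
instance isoSetoid (n : ℕ) : Setoid (Cubic (Fin n)) where
  r := Iso
  iseqv := ⟨Iso.refl, Iso.symm, Iso.trans⟩

/-- The unlabelled `n`-vertex cubic graphs. -/
def UCubic (n : ℕ) : Type := Quotient (isoSetoid n)

theorem Move.symm {V : Type*} [Fintype V] [DecidableEq V] {G H : Cubic V} (h : Move G H) :
    Move H G := by
  obtain ⟨R, u, v, a, b, huv, hG, hH⟩ := h
  refine ⟨R, u, v, b, a, huv, fun i j => ?_, fun i j => ?_⟩
  · rw [hH]; ring
  · rw [hG]; ring

/-- The graph `Γ^u_n`: two different unlabelled cubic graphs are adjacent if a Whitehead move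
transforms one into the other (up to isomorphism). -/
def GammaU (n : ℕ) : SimpleGraph (UCubic n) where
  Adj x y := x ≠ y ∧ ∃ G H : Cubic (Fin n), Quotient.mk (isoSetoid n) G = x ∧
    Quotient.mk (isoSetoid n) H = y ∧ Move G H
  symm := ⟨fun x y h => by
    obtain ⟨hxy, G, H, hG, hH, hm⟩ := h
    exact ⟨hxy.symm, H, G, hH, hG, hm.symm⟩⟩
  loopless := ⟨fun x h => h.1 rfl⟩

/-- The edge boundary of a vertex set. -/
def boundary {V : Type*} (Γ : SimpleGraph V) (X : Set V) : Set (Sym2 V) :=
  {e | e ∈ Γ.edgeSet ∧ ∃ x ∈ X, ∃ y ∈ Xᶜ, e = s(x, y)}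

/-- `φ(X) = |∂X| / min(|X|, |V ∖ X|)`. -/
noncomputable def phiSet {V : Type*} (Γ : SimpleGraph V) (X : Set V) : ℝ :=
  (boundary Γ X).ncard / min (X.ncard : ℝ) (Xᶜ.ncard : ℝ)

/-- The conductance `φ(Γ)`: the minimum (infimum of a finite set of numbers) of `φ(X)` over the
nonempty proper subsets `X` of the vertex set. -/
noncomputable def phi {V : Type*} (Γ : SimpleGraph V) : ℝ :=
  sInf {r | ∃ X : Set V, X.Nonempty ∧ X ≠ Set.univ ∧ r = phiSet Γ X}

end Pool.Agent.WHC
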