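import Pool.Agent.WHC.Defs

/-!
# The labelled graph `Γ^l_n` and the Laplacian eigenvalues of a finite graph
-/

set_option autoImplicit false

namespace Pool.Agent.WHC

/-- The graph `Γ^l_n`: two different labelled `n`-vertex cubic graphs are adjacent if a Whitehead
move transforms one into the other. -/
def GammaL (n : ℕ) : SimpleGraph (Cubic (Fin n)) where
  Adj G H := G ≠ H ∧ Move G H
  symm := ⟨fun _ _ h => ⟨h.1.symm, h.2.symm⟩⟩
  loopless := ⟨fun _ h => h.1 rfl⟩

/-- The number of eigenvalues of the Laplacian `D - A`, counted with multiplicity, that are at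
most `t`. -/
noncomputable def eigCount {V : Type*} [Fintype V] [DecidableEq V] (Γ : SimpleGraph V)
    [DecidableRel Γ.Adj] (t : ℝ) : ℕ :=
  (Finset.univ.filter (fun i : V => (Γ.isHermitian_lapMatrix ℝ).eigenvalues i ≤ t)).card

/-- `λ_k`, the `k`-th smallest eigenvalue of the Laplacian `D - A` counted with multiplicity
(`k = 1, 2, …`): the least `t` such that at least `k` eigenvalues are at most `t`. -/
noncomputable def lam {V : Type*} [Fintype V] [DecidableEq V] (Γ : SimpleGraph V)
    [DecidableRel Γ.Adj] (k : ℕ) : ℝ :=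
  sInf {t : ℝ | k ≤ eigCount Γ t}

end Pool.Agent.WHC
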