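import Pool.Agent.WHC.Pairs

set_option autoImplicit false
set_option linter.all false

namespace Pool.Agent.WHC

open Matrix

section
variable {n : ℕ} [Fintype (Cubic (Fin n))] {κ : Type*} [DecidableEq κ] (e : κ × Bool ≃ Fin n)

/-- upper bound for the exits -/
noncomputable def S (K : Finset κ) (G H : Cubic (Fin n)) : ℝ :=
  ∑ i ∈ K, ∑ β : Bool, WHC.I (e (i, β)) G H * ∏ j ∈ K.erase i, d e j G ^ 2

theorem D_nonneg (J : Finset κ) (G : Cubic (Fin n)) : 0 ≤ ∏ j ∈ J, d e j G ^ 2 :=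
  Finset.prod_nonneg (fun j _ => sq_nonneg _)

theorem S_nonneg (K : Finset κ) (G H : Cubic (Fin n)) : 0 ≤ S e K G H :=
  Finset.sum_nonneg (fun i _ => Finset.sum_nonneg (fun β _ =>
    mul_nonneg (I_nonneg _ _ _) (D_nonneg e _ _)))

theorem exit_bound (K : Finset κ) {v w b : Fin n} {G H : Cubic (Fin n)} (hP : P v w b G H) :
    (FF e K G - FF e K H) ^ 2 ≤ S e K G H := by
  obtain ⟨⟨i, β⟩, rfl⟩ := e.surjective v
  by_cases hi : i ∈ K
  · have h1 : FF e K G = d e i G * ∏ j ∈ K.erase i, d e j G :=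
      (Finset.mul_prod_erase K (fun j => d e j G) hi).symm
    have h2 : FF e K H = d e i H * ∏ j ∈ K.erase i, d e j G := by
      unfold FF
      rw [← Finset.mul_prod_erase K (fun j => d e j H) hi]
      congr 1
      exact Finset.prod_congr rfl (fun j hj => d_P e (Finset.ne_of_mem_erase hj) hP)
    have h3 : (FF e K G - FF e K H) ^ 2 = ∏ j ∈ K.erase i, d e j G ^ 2 := by
      rw [h1, h2, ← sub_mul, mul_pow, d_P_self e hP, one_mul, Finset.prod_pow]
    have h4 : WHC.I (e (i, β)) G H = 1 := by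
      unfold WHC.I
      rw [if_pos ⟨w, b, hP⟩]
    have h5 : WHC.I (e (i, β)) G H * ∏ j ∈ K.erase i, d e j G ^ 2 ≤
        ∑ β : Bool, WHC.I (e (i, β)) G H * ∏ j ∈ K.erase i, d e j G ^ 2 :=
      Finset.single_le_sum (f := fun β : Bool => WHC.I (e (i, β)) G H *
        ∏ j ∈ K.erase i, d e j G ^ 2) (fun β _ =>
        mul_nonneg (I_nonneg _ _ _) (D_nonneg e _ _)) (Finset.mem_univ β)
    have h6 : ∑ β : Bool, WHC.I (e (i, β)) G H * ∏ j ∈ K.erase i, d e j G ^ 2 ≤ S e K G H :=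
      Finset.single_le_sum (f := fun i => ∑ β : Bool, WHC.I (e (i, β)) G H *
        ∏ j ∈ K.erase i, d e j G ^ 2) (fun i _ => Finset.sum_nonneg (fun β _ =>
        mul_nonneg (I_nonneg _ _ _) (D_nonneg e _ _))) hi
    rw [h4, one_mul] at h5
    rw [h3]
    exact h5.trans h6
  · have h1 : FF e K G = FF e K H := by
      refine Finset.prod_congr rfl (fun j hj => ?_)
      exact (d_P e (i := i) (j := j) (β := β) (fun hc => hi (by rw [← hc]; exact hj)) hP).symm
    rw [h1, sub_self]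
    simpa using S_nonneg e K G H

theorem move_bound (h3 : 3 ≤ n) (K : Finset κ) {G H : Cubic (Fin n)} (h : Move G H) :
    (FF e K G - FF e K H) ^ 2 ≤ S e K G H + S e K H G := by
  have h3' : 3 ≤ Fintype.card (Fin n) := by simpa using h3
  have n1 := S_nonneg e K G H
  have n2 := S_nonneg e K H G
  rcases move_cases h3' h with h | ⟨v, w, b, h⟩ | ⟨v, w, b, h⟩
  · have h1 : FF e K G = FF e K H := by
      refine Finset.prod_congr rfl (fun j hj => ?_)
      unfold d
      rw [h, h]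
    rw [h1, sub_self]
    simpa using add_nonneg n1 n2
  · have := exit_bound e K h
    linarith
  · have h1 := exit_bound e K h
    have h2 : (FF e K G - FF e K H) ^ 2 = (FF e K H - FF e K G) ^ 2 := by ring
    linarith

theorem energy2 (h3 : 3 ≤ n) (K : Finset κ) :
    ∑ x : Cubic (Fin n) × Cubic (Fin n), ad x * (FF e K x.1 - FF e K x.2) ^ 2 ≤
      2 * (2 + eps n) * (K.card : ℝ) * ∑ G : Cubic (Fin n), (FF e K G) ^ 2 := by
  have h1 : ∑ x : Cubic (Fin n) × Cubic (Fin n), ad x * (FF e K x.1 - FF e K x.2) ^ 2 ≤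
      ∑ x : Cubic (Fin n) × Cubic (Fin n), (S e K x.1 x.2 + S e K x.2 x.1) := by
    refine Finset.sum_le_sum (fun x _ => ?_)
    unfold ad
    split_ifs with h
    · rw [one_mul]
      exact move_bound e h3 K h.2
    · rw [zero_mul]
      exact add_nonneg (S_nonneg e _ _ _) (S_nonneg e _ _ _)
  have h2 : ∑ x : Cubic (Fin n) × Cubic (Fin n), (S e K x.1 x.2 + S e K x.2 x.1) =
      2 * ∑ G : Cubic (Fin n), ∑ H : Cubic (Fin n), S e K G H := by
    rw [Fintype.sum_prod_type]
    simp only [Finset.sum_add_distrib]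
    rw [Finset.sum_comm (f := fun G H => S e K H G)]
    ring
  have h4 : ∑ G : Cubic (Fin n), ∑ H : Cubic (Fin n), S e K G H ≤
      ∑ i ∈ K, (2 + eps n) * ∑ G : Cubic (Fin n), (FF e K G) ^ 2 := by
    have e1 : ∑ G : Cubic (Fin n), ∑ H : Cubic (Fin n), S e K G H =
        ∑ i ∈ K, ∑ β : Bool, ∑ G : Cubic (Fin n), ∑ H : Cubic (Fin n),
          WHC.I (e (i, β)) G H * ∏ j ∈ K.erase i, d e j G ^ 2 := by
      unfold S
      rw [Finset.sum_congr rfl (fun G _ => Finset.sum_comm), Finset.sum_comm]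
      refine Finset.sum_congr rfl (fun i _ => ?_)
      rw [Finset.sum_congr rfl (fun G _ => Finset.sum_comm), Finset.sum_comm]
    rw [e1]
    refine Finset.sum_le_sum (fun i hi => ?_)
    have := key e h3 i (K.erase i) (Finset.notMem_erase i K)
    have h5 : ∑ G : Cubic (Fin n), (∏ j ∈ K.erase i, d e j G ^ 2) * d e i G ^ 2 =
        ∑ G : Cubic (Fin n), (FF e K G) ^ 2 := by
      refine Finset.sum_congr rfl (fun G _ => ?_)
      unfold FF
      rw [← Finset.prod_pow, mul_comm, Finset.mul_prod_erase K (fun j => d e j G ^ 2) hi]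
    rw [h5] at this
    exact this
  rw [Finset.sum_const, nsmul_eq_mul] at h4
  linarith

/-- the test functions -/
noncomputable def T2 [Fintype κ] (t : ℕ) :
    ({K : Finset κ // K.card ≤ t} → ℝ) →ₗ[ℝ] (Cubic (Fin n) → ℝ) where
  toFun c G := ∑ K, c K * FF e K.1 G
  map_add' c d := by
    ext G
    simp [add_mul, Finset.sum_add_distrib]
  map_smul' r c := by
    ext G
    simp [Finset.mul_sum, mul_assoc]

theorem norm_T2 [Fintype κ] (t : ℕ) (c : {K : Finset κ // K.card ≤ t} → ℝ) :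
    T2 e t c ⬝ᵥ T2 e t c = ∑ K, c K ^ 2 * ∑ G : Cubic (Fin n), (FF e K.1 G) ^ 2 := by
  have := ortho_sum (fun (K : {K : Finset κ // K.card ≤ t}) G => FF e K.1 G)
    (fun _ : Cubic (Fin n) => (1 : ℝ)) (fun I J hIJ => FF_orth e (fun h => hIJ (Subtype.ext h))) c
  simp only [one_mul] at this
  rw [← this, dotProduct]
  refine Finset.sum_congr rfl (fun G _ => ?_)
  show (∑ K, c K * FF e K.1 G) * (∑ K, c K * FF e K.1 G) = _
  rw [sq]

theorem energy_T2 [Fintype κ] (h3 : 3 ≤ n) (t : ℕ) (c : {K : Finset κ // K.card ≤ t} → ℝ) :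
    ∑ x : Cubic (Fin n) × Cubic (Fin n), ad x * (T2 e t c x.1 - T2 e t c x.2) ^ 2 ≤
      2 * (2 + eps n) * (t : ℝ) * (T2 e t c ⬝ᵥ T2 e t c) := by
  have h1 := ortho_sum (fun (K : {K : Finset κ // K.card ≤ t})
    (x : Cubic (Fin n) × Cubic (Fin n)) => FF e K.1 x.1 - FF e K.1 x.2) ad
    (fun I J hIJ => EE_orth e (fun h => hIJ (Subtype.ext h))) c
  have h2 : ∑ x : Cubic (Fin n) × Cubic (Fin n), ad x * (T2 e t c x.1 - T2 e t c x.2) ^ 2 =
      ∑ x : Cubic (Fin n) × Cubic (Fin n),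
        ad x * (∑ K, c K * (FF e K.1 x.1 - FF e K.1 x.2)) ^ 2 := by
    refine Finset.sum_congr rfl (fun x _ => ?_)
    congr 2
    show (∑ K, c K * FF e K.1 x.1) - (∑ K, c K * FF e K.1 x.2) = _
    rw [← Finset.sum_sub_distrib]
    exact Finset.sum_congr rfl (fun K _ => by ring)
  rw [h2, h1, norm_T2, Finset.mul_sum]
  refine Finset.sum_le_sum (fun K _ => ?_)
  have h4 := energy2 e h3 K.1
  have h5 : (K.1.card : ℝ) ≤ t := by exact_mod_cast K.2
  have h6 : 0 ≤ ∑ G : Cubic (Fin n), (FF e K.1 G) ^ 2 := Finset.sum_nonneg (fun G _ => sq_nonneg _)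
  have h7 : 2 * (2 + eps n) * (K.1.card : ℝ) * ∑ G : Cubic (Fin n), (FF e K.1 G) ^ 2 ≤
      2 * (2 + eps n) * (t : ℝ) * ∑ G : Cubic (Fin n), (FF e K.1 G) ^ 2 :=
    mul_le_mul_of_nonneg_right (mul_le_mul_of_nonneg_left h5
      (by have := eps_nonneg h3; linarith)) h6
  have h8 := mul_le_mul_of_nonneg_left (h4.trans h7) (sq_nonneg (c K))
  linarith

theorem lap_quad [DecidableEq (Cubic (Fin n))] [DecidableRel (GammaL n).Adj]
    (f : Cubic (Fin n) → ℝ) : f ⬝ᵥ ((GammaL n).lapMatrix ℝ *ᵥ f) =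
      (∑ G : Cubic (Fin n), ∑ H : Cubic (Fin n),
        if (GammaL n).Adj G H then (f G - f H) ^ 2 else 0) / 2 := by
  rw [← SimpleGraph.lapMatrix_toLinearMap₂', Matrix.toLinearMap₂'_apply']

theorem lap_quad' [DecidableEq (Cubic (Fin n))] [DecidableRel (GammaL n).Adj]
    (f : Cubic (Fin n) → ℝ) : f ⬝ᵥ ((GammaL n).lapMatrix ℝ *ᵥ f) =
      (∑ x : Cubic (Fin n) × Cubic (Fin n), ad x * (f x.1 - f x.2) ^ 2) / 2 := by
  rw [lap_quad, Fintype.sum_prod_type]
  congr 1
  refine Finset.sum_congr rfl (fun G _ => Finset.sum_congr rfl (fun H _ => ?_))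
  unfold ad
  by_cases h : (GammaL n).Adj G H
  · simp only [if_pos h, one_mul]
  · simp only [if_neg h, zero_mul]

theorem spectrum_pairs [Fintype κ] [DecidableEq (Cubic (Fin n))] [DecidableRel (GammaL n).Adj]
    (h3 : 3 ≤ n) (hpos : ∀ K : Finset κ, 0 < ∑ G : Cubic (Fin n), (FF e K G) ^ 2) (t : ℕ) :
    Fintype.card {K : Finset κ // K.card ≤ t} ≤ (Finset.univ.filter (fun i =>
      ((GammaL n).isHermitian_lapMatrix ℝ).eigenvalues i ≤ (2 + eps n) * (t : ℝ))).card := by
  apply card_eig_le _ _ (T2 e t)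
  · intro c hc
    have h1 := norm_T2 e t c
    rw [hc, dotProduct_zero] at h1
    have h2 := (Finset.sum_eq_zero_iff_of_nonneg (fun K _ => mul_nonneg (sq_nonneg (c K))
      (hpos K.1).le)).1 h1.symm
    ext K
    have h4 := h2 K (Finset.mem_univ K)
    rcases mul_eq_zero.1 h4 with h | h
    · exact pow_eq_zero_iff (two_ne_zero) |>.1 h
    · exact absurd h (hpos K.1).ne'
  · intro c
    rw [lap_quad']
    have := energy_T2 e h3 t c
    linarith

theorem spectrum_one [DecidableEq (Cubic (Fin n))] [DecidableRel (GammaL n).Adj]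
    (h4 : 4 ≤ n) (v0 : Fin n) (hpos : 0 < p v0 v0) :
    n ≤ (Finset.univ.filter (fun i =>
      ((GammaL n).isHermitian_lapMatrix ℝ).eigenvalues i ≤ 2 + eps n)).card := by
  have h0 : (⟨0, by omega⟩ : Fin n) ≠ ⟨1, by omega⟩ := by simp
  set a : Fin n := ⟨0, by omega⟩
  set b : Fin n := ⟨1, by omega⟩
  have hs : ∀ c : Fin n → ℝ, 0 ≤ ∑ v, c v ^ 2 :=
    fun c => Finset.sum_nonneg (fun v _ => sq_nonneg _)
  have hgap : 0 < p a a - p a b := by
    have h1 := p_half (n := n) (by omega) h0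
    have h2 : p a a = p b b := p_diag a b
    have h3 : p a a = p v0 v0 := p_diag a v0
    linarith
  have hex : ∀ v : Fin n, (∑ G : Cubic (Fin n), ∑ H : Cubic (Fin n), WHC.I v G H) ≤
      (2 + eps n) * (p a a - p a b) := by
    intro v
    obtain ⟨w, hw⟩ : ∃ w : Fin n, v ≠ w := by
      by_cases h : v = a
      · exact ⟨b, h ▸ h0⟩
      · exact ⟨a, h⟩
    have := exits_one2 (by omega) hw
    rwa [p_diag v a, p_off hw h0] at this
  have := card_eig_le ((GammaL n).lapMatrix ℝ) ((GammaL n).isHermitian_lapMatrix ℝ) (T (n := n)) (2 + eps n)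
    (by
      intro c hc
      have h1 := norm_ge h0 c
      rw [hc, dotProduct_zero] at h1
      have h2 : ∑ v, c v ^ 2 = 0 := by
        have := hs c
        nlinarith
      have h5 := (Finset.sum_eq_zero_iff_of_nonneg (fun v _ => sq_nonneg (c v))).1 h2
      ext v
      exact pow_eq_zero_iff (two_ne_zero) |>.1 (h5 v (Finset.mem_univ v)))
    (by
      intro c
      rw [lap_quad]
      have h1 := energy (n := n) (by omega) c
      have h2 := norm_ge h0 c
      have h5 : ∑ v, c v ^ 2 * (∑ G : Cubic (Fin n), ∑ H : Cubic (Fin n), WHC.I v G H) ≤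
          ∑ v, c v ^ 2 * ((2 + eps n) * (p a a - p a b)) :=
        Finset.sum_le_sum (fun v _ => mul_le_mul_of_nonneg_left (hex v) (sq_nonneg _))
      rw [← Finset.sum_mul] at h5
      have h6 : 0 ≤ 2 + eps n := by have := eps_nonneg (n := n) (by omega); linarith
      have h7 := mul_le_mul_of_nonneg_left h2 h6
      linarith)
  simpa using this

end

end Pool.Agent.WHC
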