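import Pool.Agent.WHC.Defs

set_option autoImplicit false

namespace Pool.Agent.WHC

open Relation

section
variable {V : Type*} [DecidableEq V]

theorem E_flip (x y i j : V) : E x y i j = E x y j i := by
  unfold E
  congr 1
  apply propext
  constructor <;> (rintro (⟨h1, h2⟩ | ⟨h1, h2⟩) <;> simp [h1, h2])

theorem E_comm (x y i j : V) : E x y i j = E y x i j := by
  unfold E
  congr 1
  apply propext
  constructor <;> (rintro (⟨h1, h2⟩ | ⟨h1, h2⟩) <;> simp [h1, h2])

theorem E_map {W : Type*} [DecidableEq W] (σ : V ≃ W) (x y i j : V) :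
    E (σ x) (σ y) (σ i) (σ j) = E x y i j := by
  unfold E
  simp

theorem E_self (x y : V) : E x y x y = 1 := by simp [E]

theorem E_eq (x y i j : V) : E x y i j =
    (if i = x ∧ j = y then 1 else 0) + (if i = y ∧ j = x ∧ x ≠ y then 1 else 0) := by
  unfold E
  by_cases h : x = y
  · subst h
    simp
  · by_cases h1 : i = x ∧ j = y
    · obtain ⟨rfl, rfl⟩ := h1
      simp [h]
    · by_cases h2 : i = y ∧ j = x
      · obtain ⟨rfl, rfl⟩ := h2
        simp [h, Ne.symm h]
      · have h3 : ¬ (i = y ∧ j = x ∧ x ≠ y) := fun h3 => h2 ⟨h3.1, h3.2.1⟩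
        simp [h1, h2, h3]

theorem E_deg [Fintype V] (x y i : V) :
    (∑ j, E x y i j) + E x y i i = (if i = x then 1 else 0) + (if i = y then 1 else 0) := by
  have h : ∀ j, E x y i j = (if j = y then (if i = x then 1 else 0) else 0)
      + (if j = x then (if i = y ∧ x ≠ y then 1 else 0) else 0) := by
    intro j
    rw [E_eq]
    congr 1
    · by_cases h1 : i = x <;> by_cases h2 : j = y <;> simp [h1, h2]
    · by_cases h1 : i = y <;> by_cases h2 : j = x <;> simp [h1, h2]
  rw [Finset.sum_congr rfl (fun j _ => h j), Finset.sum_add_distrib, Finset.sum_ite_eq',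
    Finset.sum_ite_eq', h i]
  by_cases hxy : x = y
  · subst hxy
    by_cases h1 : i = x <;> simp [h1]
  · by_cases h1 : i = x
    · subst h1
      simp [hxy]
    · by_cases h2 : i = y
      · subst h2
        simp [h1, hxy]
      · simp [h1, h2]

end

/-- The result of a Whitehead move, as a cubic graph. -/
def mv {V : Type*} [Fintype V] [DecidableEq V] (G : Cubic V) (R : V → V → ℕ) (u v a b : V)
    (hG : ∀ i j, G.m i j = R i j + E u v i j + E u a i j + E v b i j) : Cubic V where
  m i j := R i j + E u v i j + E v a i j + E u b i j
  symm i j := by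
    have h := G.symm i j
    rw [hG, hG] at h
    have h1 := E_flip u v i j
    have h2 := E_flip u a i j
    have h3 := E_flip v b i j
    have h4 := E_flip v a i j
    have h5 := E_flip u b i j
    omega
  deg i := by
    have h := G.deg i
    rw [Finset.sum_congr rfl (fun j _ => hG i j), hG i i] at h
    simp only [Finset.sum_add_distrib] at h ⊢
    have h1 := E_deg u v i
    have h2 := E_deg u a i
    have h3 := E_deg v b i
    have h4 := E_deg v a i
    have h5 := E_deg u b i
    omega
  conn := by
    intro i j
    have key : ∀ x y, 0 < G.m x y →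
        ReflTransGen (fun x y => 0 < R x y + E u v x y + E v a x y + E u b x y) x y := by
      intro x y hxy
      have e1 : ReflTransGen (fun x y => 0 < R x y + E u v x y + E v a x y + E u b x y) u v :=
        ReflTransGen.single (by have := E_self u v; omega)
      have e1' : ReflTransGen (fun x y => 0 < R x y + E u v x y + E v a x y + E u b x y) v u :=
        ReflTransGen.single (by have := E_self u v; have := E_flip u v u v; omega)
      have e2 : ReflTransGen (fun x y => 0 < R x y + E u v x y + E v a x y + E u b x y) v a :=
        ReflTransGen.single (by have := E_self v a; omega)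
      have e2' : ReflTransGen (fun x y => 0 < R x y + E u v x y + E v a x y + E u b x y) a v :=
        ReflTransGen.single (by have := E_self v a; have := E_flip v a v a; omega)
      have e3 : ReflTransGen (fun x y => 0 < R x y + E u v x y + E v a x y + E u b x y) u b :=
        ReflTransGen.single (by have := E_self u b; omega)
      have e3' : ReflTransGen (fun x y => 0 < R x y + E u v x y + E v a x y + E u b x y) b u :=
        ReflTransGen.single (by have := E_self u b; have := E_flip u b u b; omega)
      rw [hG] at hxy
      by_cases hR : 0 < R x y + E u v x y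
      · exact ReflTransGen.single (by omega)
      · by_cases hua : 0 < E u a x y
        · unfold E at hua
          split_ifs at hua with hc
          · rcases hc with ⟨rfl, rfl⟩ | ⟨rfl, rfl⟩
            · exact e1.trans e2
            · exact e2'.trans e1'
          · omega
        · have hvb : 0 < E v b x y := by omega
          unfold E at hvb
          split_ifs at hvb with hc
          · rcases hc with ⟨rfl, rfl⟩ | ⟨rfl, rfl⟩
            · exact e1'.trans e3
            · exact e3'.trans e1
          · omega
    have h := G.conn i j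
    induction h with
    | refl => exact ReflTransGen.refl
    | tail _ hbc ih => exact ih.trans (key _ _ hbc)

theorem mv_move {V : Type*} [Fintype V] [DecidableEq V] (G : Cubic V) (R : V → V → ℕ)
    (u v a b : V) (huv : u ≠ v)
    (hG : ∀ i j, G.m i j = R i j + E u v i j + E u a i j + E v b i j) :
    Move G (mv G R u v a b hG) :=
  ⟨R, u, v, a, b, huv, hG, fun _ _ => rfl⟩

/-- Transport of a cubic graph along a bijection. -/
def tr {V W : Type*} [Fintype V] [Fintype W] (σ : V ≃ W) (G : Cubic V) : Cubic W where
  m i j := G.m (σ.symm i) (σ.symm j)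
  symm i j := G.symm _ _
  deg i := by
    rw [← G.deg (σ.symm i)]
    congr 1
    exact Equiv.sum_comp σ.symm (fun j => G.m (σ.symm i) j)
  conn := by
    intro i j
    have h := G.conn (σ.symm i) (σ.symm j)
    have key : ∀ b, ReflTransGen (fun x y => 0 < G.m x y) (σ.symm i) b →
        ReflTransGen (fun x y => 0 < G.m (σ.symm x) (σ.symm y)) i (σ b) := by
      intro b hb
      induction hb with
      | refl => simpa using (ReflTransGen.refl (r := fun x y => 0 < G.m (σ.symm x) (σ.symm y)) (a := i))
      | tail _ hbc ih => exact ih.tail (by simpa using hbc)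
    have := key _ h
    simpa using this

theorem iso_tr {V W : Type*} [Fintype V] [Fintype W] (σ : V ≃ W) (G : Cubic V) :
    Iso G (tr σ G) := ⟨σ, fun i j => by simp [tr]⟩

theorem Move.tr {V W : Type*} [Fintype V] [Fintype W] [DecidableEq V] [DecidableEq W]
    (σ : V ≃ W) {G H : Cubic V} (h : Move G H) : Move (tr σ G) (WHC.tr σ H) := by
  obtain ⟨R, u, v, a, b, huv, hG, hH⟩ := h
  refine ⟨fun i j => R (σ.symm i) (σ.symm j), σ u, σ v, σ a, σ b, fun h => huv (σ.injective h),
    fun i j => ?_, fun i j => ?_⟩
  · have := hG (σ.symm i) (σ.symm j)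
    have e1 := E_map σ u v (σ.symm i) (σ.symm j)
    have e2 := E_map σ u a (σ.symm i) (σ.symm j)
    have e3 := E_map σ v b (σ.symm i) (σ.symm j)
    simp only [Equiv.apply_symm_apply] at e1 e2 e3
    simp only [WHC.tr]
    omega
  · have := hH (σ.symm i) (σ.symm j)
    have e1 := E_map σ u v (σ.symm i) (σ.symm j)
    have e2 := E_map σ v a (σ.symm i) (σ.symm j)
    have e3 := E_map σ u b (σ.symm i) (σ.symm j)
    simp only [Equiv.apply_symm_apply] at e1 e2 e3
    simp only [WHC.tr]
    omega

theorem cubic_ext {V : Type*} [Fintype V] {G H : Cubic V} (h : ∀ i j, G.m i j = H.m i j) :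
    G = H := by
  ext i j
  exact h i j

/-- moving from an isomorphic copy -/
theorem move_of_iso {V W : Type*} [Fintype V] [Fintype W] [DecidableEq V] [DecidableEq W]
    {N : Cubic V} {G H : Cubic W} (h : Iso G N) (hm : Move G H) :
    ∃ K : Cubic V, Iso H K ∧ Move N K := by
  obtain ⟨σ, hσ⟩ := h
  have hN : tr σ G = N := cubic_ext (fun i j => by
    have := hσ (σ.symm i) (σ.symm j)
    simp only [Equiv.apply_symm_apply] at this
    simp only [tr]
    exact this.symm)
  refine ⟨tr σ H, iso_tr σ H, ?_⟩
  rw [← hN]
  exact hm.tr σ

end Pool.Agent.WHC
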