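import Pool.Agent.WHC.Main
import Pool.Agent.WHC.DefsL

set_option autoImplicit false
set_option linter.all false

namespace Pool.Agent.WHC

open Relation

section
variable {V : Type*} [Fintype V] [DecidableEq V]

/-- `H` arises from `G`, which has a loop at `v`, by a move at the edge `v w` that destroys this
loop. -/
def P (v w b : V) (G H : Cubic V) : Prop :=
  w ≠ v ∧ b ≠ v ∧ b ≠ w ∧ G.m v v = 1 ∧ G.m v w = 1 ∧ 0 < G.m w b ∧
    ∀ i j, H.m i j + E v v i j + E w b i j = G.m i j + E w v i j + E v b i j

theorem deg1 (G : Cubic V) (i : V) : G.m i i ≤ 1 := by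
  have h := G.deg i
  have h1 : G.m i i ≤ ∑ j, G.m i j :=
    Finset.single_le_sum (f := fun j => G.m i j) (fun _ _ => Nat.zero_le _) (Finset.mem_univ i)
  omega

theorem deg2 (G : Cubic V) (i : V) {a b : V} (hab : a ≠ b) : G.m i a + G.m i b + G.m i i ≤ 3 := by
  have h := G.deg i
  have h1 : ∑ j ∈ {a, b}, G.m i j ≤ ∑ j, G.m i j :=
    Finset.sum_le_sum_of_subset (Finset.subset_univ _)
  rw [Finset.sum_pair hab] at h1
  omega

theorem deg3 (G : Cubic V) (i : V) {a b c : V} (hab : a ≠ b) (hac : a ≠ c) (hbc : b ≠ c) :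
    G.m i a + G.m i b + G.m i c + G.m i i ≤ 3 := by
  have h := G.deg i
  have h1 : ∑ j ∈ {a, b, c}, G.m i j ≤ ∑ j, G.m i j :=
    Finset.sum_le_sum_of_subset (Finset.subset_univ _)
  rw [Finset.sum_insert (by simp [hab, hac]), Finset.sum_pair hbc] at h1
  omega

theorem no_two_loops (h3 : 3 ≤ Fintype.card V) (G : Cubic V) {u v : V} (huv : u ≠ v)
    (hu : 1 ≤ G.m u u) (hv : 1 ≤ G.m v v) (h : 1 ≤ G.m u v) : False := by
  have h' : 1 ≤ G.m v u := by rw [G.symm]; exact h
  have key : ∀ x, ReflTransGen (fun x y => 0 < G.m x y) u x → x = u ∨ x = v := by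
    intro x hx
    induction hx with
    | refl => exact Or.inl rfl
    | @tail y z _ hyz ih =>
      by_contra hc
      push Not at hc
      rcases ih with rfl | rfl
      · have := deg3 G y huv (Ne.symm hc.1) (Ne.symm hc.2)
        omega
      · have := deg3 G y huv (Ne.symm hc.1) (Ne.symm hc.2)
        omega
  have hsub : (Finset.univ : Finset V) ⊆ {u, v} := by
    intro x _
    have := key x (G.conn u x)
    simpa using this
  have h1 := Finset.card_le_card hsub
  have h2 := Finset.card_le_two (a := u) (b := v)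
  rw [Finset.card_univ] at h1
  omega

theorem P_of_loop (h3 : 3 ≤ Fintype.card V) {G H : Cubic V} {R : V → V → ℕ} {u v b : V}
    (huv : u ≠ v)
    (hG : ∀ i j, G.m i j = R i j + E u v i j + E u u i j + E v b i j)
    (hH : ∀ i j, H.m i j = R i j + E u v i j + E v u i j + E u b i j) : P u v b G H := by
  have e1 := E_self u v
  have e2 := E_self u u
  have e3 := E_self v b
  have g1 := hG u u
  have g2 := hG u v
  have g3 := hG v b
  have d1 := deg1 G u
  have d2 := deg2 G u huv
  have hbu : b ≠ u := by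
    rintro rfl
    have := E_comm v b b v
    rw [E_self] at this
    omega
  have hbv : b ≠ v := by
    rintro rfl
    exact no_two_loops h3 G huv (by omega) (by omega) (by omega)
  refine ⟨huv.symm, hbu, hbv, by omega, by omega, by omega, fun i j => ?_⟩
  have := hG i j
  have := hH i j
  omega

theorem move_cases (h3 : 3 ≤ Fintype.card V) {G H : Cubic V} (h : Move G H) :
    (∀ x, G.m x x = H.m x x) ∨ (∃ v w b, P v w b G H) ∨ (∃ v w b, P v w b H G) := by
  obtain ⟨R, u, v, a, b, huv, hG, hH⟩ := h
  by_cases h1 : a = u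
  · subst h1
    exact Or.inr (Or.inl ⟨_, _, _, P_of_loop h3 huv hG hH⟩)
  by_cases h2 : b = v
  · subst h2
    refine Or.inr (Or.inl ⟨_, _, _, P_of_loop (R := R) (u := b) (v := u) (b := a) h3 huv.symm
      (fun i j => ?_) (fun i j => ?_)⟩)
    · rw [hG, E_comm u b i j]; ring
    · rw [hH, E_comm b u i j]; ring
  by_cases h4 : a = v
  · subst h4
    refine Or.inr (Or.inr ⟨_, _, _, P_of_loop (R := R) (u := a) (v := u) (b := b) h3 huv.symm
      (fun i j => ?_) (fun i j => ?_)⟩)
    · rw [hH, E_comm u a i j]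
    · rw [hG, E_comm a u i j]
  by_cases h5 : b = u
  · subst h5
    refine Or.inr (Or.inr ⟨_, _, _, P_of_loop (R := R) (u := b) (v := v) (b := a) h3 huv
      (fun i j => ?_) (fun i j => ?_)⟩)
    · rw [hH]; ring
    · rw [hG, E_comm v b i j]; ring
  · left
    intro x
    rw [hG, hH]
    have e1 : E u a x x = 0 := by
      unfold E; rw [if_neg]; rintro (⟨rfl, h⟩ | ⟨rfl, h⟩)
      · exact h1 h.symm
      · exact h1 h
    have e2 : E v b x x = 0 := by
      unfold E; rw [if_neg]; rintro (⟨rfl, h⟩ | ⟨rfl, h⟩)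
      · exact h2 h.symm
      · exact h2 h
    have e3 : E v a x x = 0 := by
      unfold E; rw [if_neg]; rintro (⟨rfl, h⟩ | ⟨rfl, h⟩)
      · exact h4 h.symm
      · exact h4 h
    have e4 : E u b x x = 0 := by
      unfold E; rw [if_neg]; rintro (⟨rfl, h⟩ | ⟨rfl, h⟩)
      · exact h5 h.symm
      · exact h5 h
    omega

theorem P_loops {v w b : V} {G H : Cubic V} (h : P v w b G H) :
    H.m v v = 0 ∧ ∀ x, x ≠ v → H.m x x = G.m x x := by
  obtain ⟨hw, hb, hbw, h1, h2, h3, hf⟩ := h
  constructor
  · have := hf v v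
    simp [E, hw, hb, hbw, hw.symm, hb.symm, hbw.symm] at this
    omega
  · intro x hx
    have := hf x x
    have e1 : E v v x x = 0 := by simp [E, hx]
    have e2 : E w b x x = 0 := by
      unfold E; rw [if_neg]; rintro (⟨rfl, h⟩ | ⟨rfl, h⟩)
      · exact hbw h.symm
      · exact hbw h
    have e3 : E w v x x = 0 := by simp [E, hx]
    have e4 : E v b x x = 0 := by simp [E, hx]
    omega

theorem P_left {v w b w' b' : V} {G G' H : Cubic V} (h : P v w b G H) (h' : P v w' b' G' H) :
    G = G' := by
  obtain ⟨hw, hb, hbw, h1, h2, h3, hf⟩ := h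
  obtain ⟨hw', hb', hbw', h1', h2', h3', hf'⟩ := h'
  have a1 : H.m v w = 2 := by
    have := hf v w
    simp [E, hw, hb, hbw, hw.symm, hb.symm, hbw.symm] at this
    omega
  have a1' : H.m v w' = 2 := by
    have := hf' v w'
    simp [E, hw', hb', hbw', hw'.symm, hb'.symm, hbw'.symm] at this
    omega
  have hww : w = w' := by
    by_contra hne
    have := deg2 H v hne
    omega
  subst hww
  have a2 : 1 ≤ H.m v b := by
    have := hf v b
    simp [E, hw, hb, hbw, hw.symm, hb.symm, hbw.symm] at this
    omega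
  have a2' : 1 ≤ H.m v b' := by
    have := hf' v b'
    simp [E, hw', hb', hbw', hw'.symm, hb'.symm, hbw'.symm] at this
    omega
  have hbb : b = b' := by
    by_contra hne
    have := deg3 H v hbw.symm hbw'.symm hne
    omega
  subst hbb
  apply cubic_ext
  intro i j
  have := hf i j
  have := hf' i j
  omega

theorem P_w {v w b w' b' : V} {G H H' : Cubic V} (h : P v w b G H) (h' : P v w' b' G H') :
    w = w' := by
  obtain ⟨hw, hb, hbw, h1, h2, h3, hf⟩ := h
  obtain ⟨hw', hb', hbw', h1', h2', h3', hf'⟩ := h'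
  by_contra hne
  have := deg3 G v hw.symm hw'.symm hne
  omega

theorem P_right {v w b : V} {G H H' : Cubic V} (h : P v w b G H) (h' : P v w b G H') :
    H = H' := by
  obtain ⟨hw, hb, hbw, h1, h2, h3, hf⟩ := h
  obtain ⟨hw', hb', hbw', h1', h2', h3', hf'⟩ := h'
  apply cubic_ext
  intro i j
  have := hf i j
  have := hf' i j
  omega

theorem exists_P (h3 : 3 ≤ Fintype.card V) (G : Cubic V) (v : V) (hv : G.m v v = 1) :
    ∃ w b H, P v w b G H := by
  have hw : ∃ w, w ≠ v ∧ 1 ≤ G.m v w := by
    by_contra hc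
    push Not at hc
    have h := G.deg v
    rw [Finset.sum_eq_single v (fun j _ hj => by have := hc j hj; omega)
      (fun h => absurd (Finset.mem_univ v) h)] at h
    omega
  obtain ⟨w, hwv, hw1⟩ := hw
  have hwv1 : 1 ≤ G.m w v := by rw [G.symm]; exact hw1
  have hww : G.m w w = 0 := by
    by_contra hne
    exact no_two_loops h3 G hwv.symm (by omega) (by omega) hw1
  have hb : ∃ b, b ≠ v ∧ b ≠ w ∧ 1 ≤ G.m w b := by
    by_contra hc
    push Not at hc
    have h := G.deg w
    have h2 : ∑ j, G.m w j = G.m w v := by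
      refine Finset.sum_eq_single v (fun j _ hj => ?_) (fun h => absurd (Finset.mem_univ v) h)
      by_cases hjw : j = w
      · rw [hjw]; exact hww
      · have := hc j hj hjw; omega
    have h4 := deg2 G v hwv
    rw [G.symm v w] at h4
    omega
  obtain ⟨b, hbv, hbw, hb1⟩ := hb
  have E1 : ∀ x y i j : V, E x y i j ≤ 1 := by
    intro x y i j
    unfold E
    split_ifs <;> omega
  have hbw1 : 1 ≤ G.m b w := by rw [G.symm]; exact hb1
  have hle : ∀ i j, E v w i j + E v v i j + E w b i j ≤ G.m i j := by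
    intro i j
    by_cases ha : (i = v ∧ j = w) ∨ (i = w ∧ j = v)
    · rcases ha with ⟨rfl, rfl⟩ | ⟨rfl, rfl⟩
      · have e1 : E i i i j = 0 := by unfold E; rw [if_neg]; tauto
        have e2 : E j b i j = 0 := by
          unfold E; rw [if_neg]; rintro (⟨h, _⟩ | ⟨h, _⟩)
          · exact hwv h.symm
          · exact hbv h.symm
        have := E1 i j i j
        omega
      · have e1 : E j j i j = 0 := by unfold E; rw [if_neg]; tauto
        have e2 : E i b i j = 0 := by
          unfold E; rw [if_neg]; rintro (⟨_, h⟩ | ⟨h, _⟩)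
          · exact hbv h.symm
          · exact hbw h.symm
        have := E1 j i i j
        omega
    · have e0 : E v w i j = 0 := by unfold E; rw [if_neg ha]
      by_cases hb' : i = v ∧ j = v
      · rw [hb'.1, hb'.2]
        have e0' : E v w v v = 0 := by
          unfold E; rw [if_neg]; rintro (⟨_, h⟩ | ⟨h, _⟩)
          · exact hwv h.symm
          · exact hwv h.symm
        have e2 : E w b v v = 0 := by
          unfold E; rw [if_neg]; rintro (⟨h, _⟩ | ⟨h, _⟩)
          · exact hwv h.symm
          · exact hbv h.symm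
        have := E1 v v v v
        omega
      · have e1 : E v v i j = 0 := by unfold E; rw [if_neg]; tauto
        by_cases hc : (i = w ∧ j = b) ∨ (i = b ∧ j = w)
        · have := E1 w b i j
          rcases hc with ⟨rfl, rfl⟩ | ⟨rfl, rfl⟩ <;> omega
        · have e2 : E w b i j = 0 := by unfold E; rw [if_neg hc]
          omega
  have hG : ∀ i j, G.m i j = (G.m i j - (E v w i j + E v v i j + E w b i j)) + E v w i j
      + E v v i j + E w b i j := fun i j => by have := hle i j; omega
  exact ⟨w, b, mv G _ v w v b hG, P_of_loop (R := fun i j =>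
    G.m i j - (E v w i j + E v v i j + E w b i j)) h3 hwv.symm hG (fun i j => rfl)⟩

end

end Pool.Agent.WHC
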