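import Pool.Agent.WHC.Lab
import Pool.Agent.WHC.CF

set_option autoImplicit false
set_option linter.all false

namespace Pool.Agent.WHC

open Matrix

/-- transport as an equivalence -/
def trE {V : Type*} [Fintype V] (σ : V ≃ V) : Cubic V ≃ Cubic V where
  toFun := tr σ
  invFun := tr σ.symm
  left_inv G := cubic_ext (fun i j => by simp [tr])
  right_inv G := cubic_ext (fun i j => by simp [tr])

section
variable {n : ℕ} [Fintype (Cubic (Fin n))]

/-- number of graphs with loops at `v` and at `w` -/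
noncomputable def p (v w : Fin n) : ℝ := ∑ G : Cubic (Fin n), (G.m v v : ℝ) * (G.m w w : ℝ)

theorem p_perm (σ : Equiv.Perm (Fin n)) (v w : Fin n) : p (σ v) (σ w) = p v w := by
  unfold p
  rw [← Equiv.sum_comp (trE σ)]
  refine Finset.sum_congr rfl (fun G _ => ?_)
  simp [trE, tr]

theorem p_diag (v v' : Fin n) : p v v = p v' v' := by
  have := p_perm (Equiv.swap v v') v v
  simp only [Equiv.swap_apply_left] at this
  exact this.symm

theorem p_off {v w v' w' : Fin n} (h : v ≠ w) (h' : v' ≠ w') : p v w = p v' w' := by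
  have h1 := p_perm (Equiv.swap v v') v w
  rw [Equiv.swap_apply_left] at h1
  set w1 := (Equiv.swap v v') w with hw1
  have hne : w1 ≠ v' := by
    intro hc
    apply h
    apply (Equiv.swap v v').injective
    rw [Equiv.swap_apply_left, ← hw1, hc]
  have h2 := p_perm (Equiv.swap w1 w') v' w1
  rw [Equiv.swap_apply_left, Equiv.swap_apply_of_ne_of_ne hne.symm h'] at h2
  rw [← h1, ← h2]

theorem mul_ind (G : Cubic (Fin n)) (v w : Fin n) : (G.m v v : ℝ) * (G.m w w : ℝ) =
    if G.m v v = 1 ∧ G.m w w = 1 then 1 else 0 := by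
  have h1 := deg1 G v
  have h2 := deg1 G w
  rcases Nat.le_one_iff_eq_zero_or_eq_one.1 h1 with h | h <;>
    rcases Nat.le_one_iff_eq_zero_or_eq_one.1 h2 with h' | h' <;> simp [h, h']

theorem p_half (h3 : 3 ≤ n) {v w : Fin n} (h : v ≠ w) : 2 * p v w ≤ p w w := by
  classical
  have h3' : 3 ≤ Fintype.card (Fin n) := by simpa using h3
  let S1 : Finset (Cubic (Fin n)) := Finset.univ.filter (fun G => G.m v v = 1 ∧ G.m w w = 1)
  let S2 : Finset (Cubic (Fin n)) := Finset.univ.filter (fun G => G.m v v = 0 ∧ G.m w w = 1)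
  have e1 : p v w = S1.card := by
    unfold p
    rw [Finset.sum_congr rfl (fun G _ => mul_ind G v w), Finset.sum_boole]
  have e2 : p w w = S1.card + S2.card := by
    unfold p
    have hterm : ∀ G : Cubic (Fin n), (G.m w w : ℝ) * (G.m w w : ℝ) =
        (if G.m v v = 1 ∧ G.m w w = 1 then 1 else 0) +
          (if G.m v v = 0 ∧ G.m w w = 1 then 1 else 0) := by
      intro G
      have h1 := deg1 G v
      have h2 := deg1 G w
      rcases Nat.le_one_iff_eq_zero_or_eq_one.1 h1 with h | h <;>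
        rcases Nat.le_one_iff_eq_zero_or_eq_one.1 h2 with h' | h' <;> simp [h, h']
    rw [Finset.sum_congr rfl (fun G _ => hterm G), Finset.sum_add_distrib, Finset.sum_boole,
      Finset.sum_boole]
  have hle : S1.card ≤ S2.card := by
    apply Finset.card_le_card_of_forall_subsingleton
      (fun G H => ∃ a b, P v a b G H)
    · intro G hG
      simp only [S1, Finset.mem_filter, Finset.mem_univ, true_and] at hG
      obtain ⟨a, b, H, hH⟩ := exists_P h3' G v hG.1
      refine ⟨H, ?_, a, b, hH⟩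
      simp only [S2, Finset.mem_filter, Finset.mem_univ, true_and]
      exact ⟨(P_loops hH).1, ((P_loops hH).2 w h.symm).trans hG.2⟩
    · intro H _ G hG G' hG'
      obtain ⟨_, a, b, hP⟩ := hG
      obtain ⟨_, a', b', hP'⟩ := hG'
      exact P_left hP hP'
  rw [e1, e2]
  have : (S1.card : ℝ) ≤ S2.card := by exact_mod_cast hle
  linarith

open Classical in
/-- indicator of an exit -/
noncomputable def I (v : Fin n) (G H : Cubic (Fin n)) : ℝ := if ∃ w b, P v w b G H then 1 else 0

theorem I_nonneg (v : Fin n) (G H : Cubic (Fin n)) : 0 ≤ I v G H := by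
  unfold I; split_ifs <;> norm_num

theorem card_exit (v : Fin n) (G : Cubic (Fin n)) (S : Finset (Cubic (Fin n)))
    (hS : ∀ H ∈ S, ∃ w b, P v w b G H) : S.card ≤ 2 := by
  classical
  rcases S.eq_empty_or_nonempty with rfl | ⟨H0, hH0⟩
  · simp
  obtain ⟨w0, b0, hP0⟩ := hS H0 hH0
  let B : Finset (Fin n) := Finset.univ.filter (fun b => b ≠ v ∧ 0 < G.m w0 b)
  have hB : B.card ≤ 2 := by
    have hd := G.deg w0
    have h1 : ∑ j ∈ insert v B, G.m w0 j ≤ ∑ j, G.m w0 j :=
      Finset.sum_le_sum_of_subset (Finset.subset_univ _)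
    rw [Finset.sum_insert (by simp [B])] at h1
    have h2 : B.card * 1 ≤ ∑ j ∈ B, G.m w0 j := by
      rw [← smul_eq_mul]
      apply Finset.card_nsmul_le_sum
      intro x hx
      simp only [B, Finset.mem_filter] at hx
      exact hx.2.2
    have h3 : G.m w0 v = 1 := by rw [G.symm]; exact hP0.2.2.2.2.1
    omega
  refine (Finset.card_le_card_of_forall_subsingleton (fun H b => P v w0 b G H) ?_ ?_).trans hB
  · intro H hH
    obtain ⟨w, b, hP⟩ := hS H hH
    have hw := P_w hP0 hP
    subst hw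
    refine ⟨b, ?_, hP⟩
    simp only [B, Finset.mem_filter, Finset.mem_univ, true_and]
    exact ⟨hP.2.1, hP.2.2.2.2.2.1⟩
  · intro b _ H hH H' hH'
    exact P_right hH.2 hH'.2

theorem sum_I (v : Fin n) (G : Cubic (Fin n)) : ∑ H, I v G H ≤ 2 * (G.m v v : ℝ) := by
  classical
  have h1 := deg1 G v
  rcases Nat.le_one_iff_eq_zero_or_eq_one.1 h1 with h | h
  · rw [h]
    have : ∀ H, I v G H = 0 := by
      intro H
      unfold I
      rw [if_neg]
      rintro ⟨w, b, hP⟩
      have := hP.2.2.2.1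
      omega
    rw [Finset.sum_congr rfl (fun H _ => this H)]
    simp
  · rw [h]
    unfold I
    rw [Finset.sum_boole]
    have := card_exit v G (Finset.univ.filter (fun H => ∃ w b, P v w b G H))
      (fun H hH => (Finset.mem_filter.1 hH).2)
    have h2 : ((Finset.univ.filter (fun H => ∃ w b, P v w b G H)).card : ℝ) ≤ 2 := by
      exact_mod_cast this
    simpa using h2

theorem sum_I_left (v : Fin n) (H : Cubic (Fin n)) : ∑ G, I v G H ≤ 1 - (H.m v v : ℝ) := by
  classical
  have h1 := deg1 H v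
  rcases Nat.le_one_iff_eq_zero_or_eq_one.1 h1 with h | h
  · rw [h]
    unfold I
    rw [Finset.sum_boole]
    have h2 : (Finset.univ.filter (fun G => ∃ w b, P v w b G H)).card ≤ 1 := by
      rw [Finset.card_le_one]
      intro G hG G' hG'
      obtain ⟨w, b, hP⟩ := (Finset.mem_filter.1 hG).2
      obtain ⟨w', b', hP'⟩ := (Finset.mem_filter.1 hG').2
      exact P_left hP hP'
    have h3 : ((Finset.univ.filter (fun G => ∃ w b, P v w b G H)).card : ℝ) ≤ 1 := by
      exact_mod_cast h2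
    simpa using h3
  · rw [h]
    have : ∀ G, I v G H = 0 := by
      intro G
      unfold I
      rw [if_neg]
      rintro ⟨w, b, hP⟩
      have := (P_loops hP).1
      omega
    rw [Finset.sum_congr rfl (fun G _ => this G)]
    simp

theorem exits_gen {v w : Fin n} (hvw : v ≠ w) (g : Cubic (Fin n) → ℝ)
    (g0 : ∀ G, 0 ≤ g G) (hg : ∀ G H a b, P v a b G H → g H = g G) :
    ∑ G : Cubic (Fin n), ∑ H : Cubic (Fin n), I v G H * g G ≤
      ∑ G : Cubic (Fin n), g G * (2 * ((G.m v v : ℝ) * (1 - (G.m w w : ℝ)))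
        + (1 - (G.m v v : ℝ)) * (G.m w w : ℝ)) := by
  have h01 : ∀ G : Cubic (Fin n), 0 ≤ (G.m w w : ℝ) ∧ 0 ≤ 1 - (G.m w w : ℝ) := by
    intro G
    have h1 := deg1 G w
    rcases Nat.le_one_iff_eq_zero_or_eq_one.1 h1 with h | h <;> rw [h] <;> norm_num
  have hA : ∑ G : Cubic (Fin n), ∑ H : Cubic (Fin n), I v G H * (g G * (1 - (G.m w w : ℝ))) ≤
      ∑ G : Cubic (Fin n), g G * (2 * ((G.m v v : ℝ) * (1 - (G.m w w : ℝ)))) := by
    refine Finset.sum_le_sum (fun G _ => ?_)
    rw [← Finset.sum_mul]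
    have := mul_le_mul_of_nonneg_right (sum_I v G) (mul_nonneg (g0 G) (h01 G).2)
    linarith
  have hB : ∑ G : Cubic (Fin n), ∑ H : Cubic (Fin n), I v G H * (g G * (G.m w w : ℝ)) ≤
      ∑ G : Cubic (Fin n), g G * ((1 - (G.m v v : ℝ)) * (G.m w w : ℝ)) := by
    have h1 : ∀ G H : Cubic (Fin n), I v G H * (g G * (G.m w w : ℝ)) =
        I v G H * (g H * (H.m w w : ℝ)) := by
      intro G H
      unfold I
      split_ifs with h
      · obtain ⟨a, b, hP⟩ := h
        rw [hg G H a b hP, (P_loops hP).2 w hvw.symm]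
      · simp
    rw [Finset.sum_congr rfl (fun G _ => Finset.sum_congr rfl (fun H _ => h1 G H)),
      Finset.sum_comm]
    refine Finset.sum_le_sum (fun H _ => ?_)
    rw [← Finset.sum_mul]
    have := mul_le_mul_of_nonneg_right (sum_I_left v H) (mul_nonneg (g0 H) (h01 H).1)
    linarith
  have hC : ∑ G : Cubic (Fin n), ∑ H : Cubic (Fin n), I v G H * g G =
      (∑ G : Cubic (Fin n), ∑ H : Cubic (Fin n), I v G H * (g G * (1 - (G.m w w : ℝ))))
      + ∑ G : Cubic (Fin n), ∑ H : Cubic (Fin n), I v G H * (g G * (G.m w w : ℝ)) := by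
    rw [← Finset.sum_add_distrib]
    refine Finset.sum_congr rfl (fun G _ => ?_)
    rw [← Finset.sum_add_distrib]
    exact Finset.sum_congr rfl (fun H _ => by ring)
  have hD : ∑ G : Cubic (Fin n), g G * (2 * ((G.m v v : ℝ) * (1 - (G.m w w : ℝ)))
        + (1 - (G.m v v : ℝ)) * (G.m w w : ℝ)) =
      (∑ G : Cubic (Fin n), g G * (2 * ((G.m v v : ℝ) * (1 - (G.m w w : ℝ)))))
      + ∑ G : Cubic (Fin n), g G * ((1 - (G.m v v : ℝ)) * (G.m w w : ℝ)) := by
    rw [← Finset.sum_add_distrib]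
    exact Finset.sum_congr rfl (fun G _ => by ring)
  rw [hC, hD]
  exact add_le_add hA hB

theorem exits_one {v w : Fin n} (hvw : v ≠ w) :
    ∑ G : Cubic (Fin n), ∑ H : Cubic (Fin n), I v G H ≤ 3 * (p v v - p v w) := by
  have h := exits_gen hvw (fun _ => (1 : ℝ)) (fun _ => zero_le_one) (fun _ _ _ _ _ => rfl)
  simp only [mul_one, one_mul] at h
  refine h.trans (le_of_eq ?_)
  have h1 : p v v = ∑ G : Cubic (Fin n), (G.m v v : ℝ) := by
    unfold p
    refine Finset.sum_congr rfl (fun G _ => ?_)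
    have h1 := deg1 G v
    rcases Nat.le_one_iff_eq_zero_or_eq_one.1 h1 with h | h <;> simp [h]
  have h2 : p v v = ∑ G : Cubic (Fin n), (G.m w w : ℝ) := by
    rw [p_diag v w]
    unfold p
    refine Finset.sum_congr rfl (fun G _ => ?_)
    have h1 := deg1 G w
    rcases Nat.le_one_iff_eq_zero_or_eq_one.1 h1 with h | h <;> simp [h]
  have h3 : ∑ G : Cubic (Fin n), (2 * ((G.m v v : ℝ) * (1 - (G.m w w : ℝ)))
        + (1 - (G.m v v : ℝ)) * (G.m w w : ℝ)) =
      2 * (∑ G : Cubic (Fin n), (G.m v v : ℝ)) + (∑ G : Cubic (Fin n), (G.m w w : ℝ))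
        - 3 * p v w := by
    unfold p
    rw [Finset.mul_sum, Finset.mul_sum, ← Finset.sum_add_distrib, ← Finset.sum_sub_distrib]
    exact Finset.sum_congr rfl (fun G _ => by ring)
  rw [h3, ← h1, ← h2]
  ring

/-- the test functions -/
noncomputable def T : (Fin n → ℝ) →ₗ[ℝ] (Cubic (Fin n) → ℝ) where
  toFun c G := ∑ v, c v * (G.m v v : ℝ)
  map_add' c d := by
    ext G
    simp [add_mul, Finset.sum_add_distrib]
  map_smul' r c := by
    ext G
    simp [Finset.mul_sum, mul_assoc]

theorem T_apply (c : Fin n → ℝ) (G : Cubic (Fin n)) : T c G = ∑ v, c v * (G.m v v : ℝ) := rfl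

theorem T_P {c : Fin n → ℝ} {G H : Cubic (Fin n)} {v w b : Fin n} (h : P v w b G H) :
    T c G - T c H = c v := by
  rw [T_apply, T_apply, ← Finset.sum_sub_distrib]
  rw [Finset.sum_eq_single v]
  · rw [(P_loops h).1, h.2.2.2.1]; simp
  · intro x _ hx
    rw [(P_loops h).2 x hx]; ring
  · intro h; exact absurd (Finset.mem_univ v) h

theorem edge_bound (h3 : 3 ≤ n) (c : Fin n → ℝ) {G H : Cubic (Fin n)} (h : Move G H) :
    (T c G - T c H) ^ 2 ≤ ∑ v, c v ^ 2 * (I v G H + I v H G) := by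
  have h3' : 3 ≤ Fintype.card (Fin n) := by simpa using h3
  have hnn : ∀ v ∈ (Finset.univ : Finset (Fin n)), 0 ≤ c v ^ 2 * (I v G H + I v H G) :=
    fun v _ => mul_nonneg (sq_nonneg _) (add_nonneg (I_nonneg _ _ _) (I_nonneg _ _ _))
  rcases move_cases h3' h with h | ⟨v, w, b, h⟩ | ⟨v, w, b, h⟩
  · have : T c G = T c H := by
      rw [T_apply, T_apply]
      exact Finset.sum_congr rfl (fun x _ => by rw [h x])
    rw [this, sub_self]
    simpa using Finset.sum_nonneg hnn
  · rw [T_P h]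
    refine le_trans ?_ (Finset.single_le_sum hnn (Finset.mem_univ v))
    have h1 : I v G H = 1 := by unfold I; rw [if_pos ⟨w, b, h⟩]
    have h2 := I_nonneg v H G
    nlinarith [sq_nonneg (c v)]
  · have h0 : T c G - T c H = - c v := by rw [← T_P (c := c) h]; ring
    rw [h0]
    refine le_trans ?_ (Finset.single_le_sum hnn (Finset.mem_univ v))
    have h1 : I v H G = 1 := by unfold I; rw [if_pos ⟨w, b, h⟩]
    have h2 := I_nonneg v G H
    nlinarith [sq_nonneg (c v)]

theorem energy [DecidableRel (GammaL n).Adj] (h3 : 3 ≤ n) (c : Fin n → ℝ) :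
    (∑ G : Cubic (Fin n), ∑ H : Cubic (Fin n),
      if (GammaL n).Adj G H then (T c G - T c H) ^ 2 else 0) / 2 ≤
      ∑ v, c v ^ 2 * ∑ G : Cubic (Fin n), ∑ H : Cubic (Fin n), I v G H := by
  have hpt : ∀ G H : Cubic (Fin n),
      (if (GammaL n).Adj G H then (T c G - T c H) ^ 2 else 0) ≤
        ∑ v, c v ^ 2 * (I v G H + I v H G) := by
    intro G H
    split_ifs with h
    · exact edge_bound h3 c h.2
    · exact Finset.sum_nonneg (fun v _ => mul_nonneg (sq_nonneg _)
        (add_nonneg (I_nonneg _ _ _) (I_nonneg _ _ _)))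
  have h1 : (∑ G : Cubic (Fin n), ∑ H : Cubic (Fin n),
      if (GammaL n).Adj G H then (T c G - T c H) ^ 2 else 0) ≤
      ∑ G : Cubic (Fin n), ∑ H : Cubic (Fin n), ∑ v, c v ^ 2 * (I v G H + I v H G) :=
    Finset.sum_le_sum (fun G _ => Finset.sum_le_sum (fun H _ => hpt G H))
  have h2 : (∑ G : Cubic (Fin n), ∑ H : Cubic (Fin n), ∑ v, c v ^ 2 * (I v G H + I v H G)) =
      ∑ v, c v ^ 2 * (2 * ∑ G : Cubic (Fin n), ∑ H : Cubic (Fin n), I v G H) := by
    have e1 : ∀ v : Fin n, (∑ G : Cubic (Fin n), ∑ H : Cubic (Fin n), (I v G H + I v H G)) =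
        2 * ∑ G : Cubic (Fin n), ∑ H : Cubic (Fin n), I v G H := by
      intro v
      simp only [Finset.sum_add_distrib]
      rw [Finset.sum_comm (f := fun G H => I v H G)]
      ring
    have e2 : (∑ G : Cubic (Fin n), ∑ H : Cubic (Fin n), ∑ v, c v ^ 2 * (I v G H + I v H G)) =
        ∑ v, ∑ G : Cubic (Fin n), ∑ H : Cubic (Fin n), c v ^ 2 * (I v G H + I v H G) := by
      rw [Finset.sum_congr rfl (fun G _ => Finset.sum_comm), Finset.sum_comm]
    rw [e2]
    refine Finset.sum_congr rfl (fun v _ => ?_)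
    rw [← e1 v, Finset.mul_sum]
    refine Finset.sum_congr rfl (fun G _ => ?_)
    rw [Finset.mul_sum]
  have h6 : (∑ v, c v ^ 2 * (2 * ∑ G : Cubic (Fin n), ∑ H : Cubic (Fin n), I v G H)) =
      2 * ∑ v, c v ^ 2 * ∑ G : Cubic (Fin n), ∑ H : Cubic (Fin n), I v G H := by
    rw [Finset.mul_sum]
    exact Finset.sum_congr rfl (fun v _ => by ring)
  linarith

theorem norm_T (c : Fin n → ℝ) : T c ⬝ᵥ T c = ∑ v, ∑ w, c v * c w * p v w := by
  rw [dotProduct]
  have h1 : ∀ G : Cubic (Fin n), T c G * T c G =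
      ∑ v, ∑ w, c v * c w * ((G.m v v : ℝ) * (G.m w w : ℝ)) := by
    intro G
    rw [T_apply, Finset.sum_mul_sum]
    exact Finset.sum_congr rfl (fun v _ => Finset.sum_congr rfl (fun w _ => by ring))
  rw [Finset.sum_congr rfl (fun G _ => h1 G), Finset.sum_comm]
  refine Finset.sum_congr rfl (fun v _ => ?_)
  rw [Finset.sum_comm]
  refine Finset.sum_congr rfl (fun w _ => ?_)
  unfold p
  rw [Finset.mul_sum]

theorem norm_ge {a b : Fin n} (h0 : a ≠ b) (c : Fin n → ℝ) :
    (p a a - p a b) * ∑ v, c v ^ 2 ≤ T c ⬝ᵥ T c := by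
  have hpq : ∀ v w : Fin n, p v w = (if v = w then p a a - p a b else 0) + p a b := by
    intro v w
    by_cases h : v = w
    · subst h
      rw [if_pos rfl, p_diag v a]; ring
    · rw [if_neg h, p_off h h0]; ring
  have hpos : 0 ≤ p a b := Finset.sum_nonneg (fun G _ => by positivity)
  have hsum : (∑ v, ∑ w, c v * c w * p v w) =
      (p a a - p a b) * (∑ v, c v ^ 2) + p a b * (∑ v, c v) ^ 2 := by
    have e1 : ∀ v w : Fin n, c v * c w * p v w =
        (if v = w then (p a a - p a b) * (c v * c w) else 0) + p a b * (c v * c w) := by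
      intro v w
      rw [hpq v w]
      split_ifs <;> ring
    rw [Finset.sum_congr rfl (fun v _ => Finset.sum_congr rfl (fun w _ => e1 v w))]
    simp only [Finset.sum_add_distrib, Finset.sum_ite_eq, Finset.mem_univ, if_true]
    congr 1
    · rw [Finset.mul_sum]
      exact Finset.sum_congr rfl (fun v _ => by ring)
    · rw [sq, Finset.sum_mul_sum, Finset.mul_sum]
      exact Finset.sum_congr rfl (fun v _ => by rw [Finset.mul_sum])
  rw [norm_T, hsum]
  have := mul_nonneg hpos (sq_nonneg (∑ v, c v))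
  linarith

end

end Pool.Agent.WHC
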