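import Pool.Agent.WHC.Class

set_option autoImplicit false
set_option linter.all false

namespace Pool.Agent.WHC

open Relation

section
variable (k : ℕ) [NeZero k] [Fact (1 < k)]

theorem leA (i j : ZMod k × Bool) :
    E ((0 : ZMod k), true) (1, false) i j + E ((0 : ZMod k), true) (0, false) i j
      + E ((1 : ZMod k), false) (1, true) i j ≤ nm k i j := by
  have h1 := one_ne k
  have h1' := (one_ne k).symm
  unfold E
  split_ifs with ha hb hc hc hb hc hc
  all_goals try omega
  all_goals
    first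
    | (rcases ha with ⟨rfl, rfl⟩ | ⟨rfl, rfl⟩ <;> simp_all [nm])
    | skip
  all_goals
    first
    | (rcases hb with ⟨rfl, rfl⟩ | ⟨rfl, rfl⟩ <;> simp_all [nm])
    | skip
  all_goals
    first
    | (rcases hc with ⟨rfl, rfl⟩ | ⟨rfl, rfl⟩ <;> simp_all [nm])
    | skip

theorem leB (i j : ZMod k × Bool) :
    E ((0 : ZMod k), false) (0, true) i j + E ((0 : ZMod k), false) (0, true) i j
      + E ((0 : ZMod k), true) (1, false) i j ≤ nm k i j := by
  have h1 := one_ne k
  have h1' := (one_ne k).symm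
  unfold E
  split_ifs with ha hb hc hc hb hc hc
  all_goals try omega
  all_goals
    first
    | (rcases ha with ⟨rfl, rfl⟩ | ⟨rfl, rfl⟩ <;> simp_all [nm])
    | skip
  all_goals
    first
    | (rcases hb with ⟨rfl, rfl⟩ | ⟨rfl, rfl⟩ <;> simp_all [nm])
    | skip
  all_goals
    first
    | (rcases hc with ⟨rfl, rfl⟩ | ⟨rfl, rfl⟩ <;> simp_all [nm])
    | skip

theorem hGA (i j : ZMod k × Bool) : (Neck k).m i j =
    (nm k i j - (E ((0 : ZMod k), true) (1, false) i j + E ((0 : ZMod k), true) (0, false) i j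
      + E ((1 : ZMod k), false) (1, true) i j)) + E ((0 : ZMod k), true) (1, false) i j
      + E ((0 : ZMod k), true) (0, false) i j + E ((1 : ZMod k), false) (1, true) i j := by
  have := leA k i j
  show nm k i j = _
  omega

theorem hGB (i j : ZMod k × Bool) : (Neck k).m i j =
    (nm k i j - (E ((0 : ZMod k), false) (0, true) i j + E ((0 : ZMod k), false) (0, true) i j
      + E ((0 : ZMod k), true) (1, false) i j)) + E ((0 : ZMod k), false) (0, true) i j
      + E ((0 : ZMod k), false) (0, true) i j + E ((0 : ZMod k), true) (1, false) i j := by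
  have := leB k i j
  show nm k i j = _
  omega

/-- move on a single edge -/
def NA : Cubic (ZMod k × Bool) := mv (Neck k) _ _ _ _ _ (hGA k)
/-- move on a double edge creating a loop -/
def NB : Cubic (ZMod k × Bool) := mv (Neck k) _ _ _ _ _ (hGB k)

theorem hQA : Q k (0, true) (1, false) (0, false) (1, true) (NA k) := fun i j => by
  have h := hGA k i j
  have h' : (Neck k).m i j = nm k i j := rfl
  simp only [NA, mv]
  omega

theorem hQB : Q k (0, false) (0, true) (0, true) (1, false) (NB k) := fun i j => by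
  have h := hGB k i j
  have h' : (Neck k).m i j = nm k i j := rfl
  simp only [NB, mv]
  omega

theorem not_iso_NB : ¬ Iso (Neck k) (NB k) := by
  rintro ⟨σ, hσ⟩
  have h1 := hσ (σ.symm (0, true)) (σ.symm (0, true))
  simp only [Equiv.apply_symm_apply] at h1
  have h2 : ∀ x, (Neck k).m x x = 0 := by
    rintro ⟨i, b⟩
    cases b
    · exact nm_ff k i i
    · exact nm_tt k i i
  rw [h2] at h1
  simp only [NB, mv] at h1
  have := E_self ((0 : ZMod k), true) (0, true)
  omega

end

instance finite_cubic (n : ℕ) : Finite (Cubic (Fin n)) := by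
  have hle : ∀ (G : Cubic (Fin n)) (i j : Fin n), G.m i j < 4 := by
    intro G i j
    have h1 := G.deg i
    have h2 : G.m i j ≤ ∑ j, G.m i j :=
      Finset.single_le_sum (f := fun j => G.m i j) (fun _ _ => Nat.zero_le _) (Finset.mem_univ j)
    omega
  refine Finite.of_injective
    (fun (G : Cubic (Fin n)) => fun (i j : Fin n) => (⟨G.m i j, hle G i j⟩ : Fin 4)) ?_
  intro G H h
  refine cubic_ext fun i j => ?_
  have := congrFun (congrFun h i) j
  simpa using congrArg Fin.val this

instance finite_ucubic (n : ℕ) : Finite (UCubic n) :=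
  inferInstanceAs (Finite (Quotient (isoSetoid n)))

theorem phi_le_of {V : Type*} [Finite V] (Γ : SimpleGraph V) (x y : V) (hxy : y ≠ x) (d : ℕ)
    (N : Set V) (hNf : N.Finite) (hN : N.ncard ≤ d) (h : ∀ z, Γ.Adj x z → z ∈ N) :
    phi Γ ≤ d := by
  have hb : BddBelow {r | ∃ X : Set V, X.Nonempty ∧ X ≠ Set.univ ∧ r = phiSet Γ X} := by
    refine ⟨0, ?_⟩
    rintro r ⟨X, -, -, rfl⟩
    unfold phiSet
    positivity
  have hmem : phiSet Γ {x} ∈ {r | ∃ X : Set V, X.Nonempty ∧ X ≠ Set.univ ∧ r = phiSet Γ X} := by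
    refine ⟨{x}, Set.singleton_nonempty x, ?_, rfl⟩
    intro hu
    have : y ∈ ({x} : Set V) := by rw [hu]; trivial
    exact hxy this
  refine (csInf_le hb hmem).trans ?_
  have hsub : boundary Γ {x} ⊆ (fun z => s(x, z)) '' N := by
    rintro e ⟨he, a, ha, b, _, rfl⟩
    have ha' : a = x := ha
    subst ha'
    exact ⟨b, h b (by simpa using he), rfl⟩
  have h1 : (boundary Γ {x}).ncard ≤ d := by
    calc (boundary Γ {x}).ncard ≤ ((fun z => s(x, z)) '' N).ncard :=
          Set.ncard_le_ncard hsub (hNf.image _)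
      _ ≤ N.ncard := Set.ncard_image_le hNf
      _ ≤ d := hN
  have h2 : (1 : ℝ) ≤ (({x} : Set V)ᶜ.ncard : ℝ) := by
    have : 0 < ({x} : Set V)ᶜ.ncard := (Set.ncard_pos (Set.toFinite _)).2 ⟨y, hxy⟩
    exact_mod_cast this
  unfold phiSet
  rw [Set.ncard_singleton, Nat.cast_one, min_eq_left h2, div_one]
  exact_mod_cast h1

theorem main (n : ℕ) (hn : Even n) (h4 : 4 ≤ n) :
    (∃ x : UCubic n, ((GammaU n).neighborSet x).ncard ≤ 2) ∧ phi (GammaU n) ≤ 2 := by
  obtain ⟨k, hk⟩ := hn
  haveI : NeZero k := ⟨by omega⟩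
  haveI : Fact (1 < k) := ⟨by omega⟩
  have hcard : Fintype.card (ZMod k × Bool) = n := by
    rw [Fintype.card_prod, ZMod.card, Fintype.card_bool]
    omega
  let σ : (ZMod k × Bool) ≃ Fin n := Fintype.equivFinOfCardEq hcard
  let cl : Cubic (ZMod k × Bool) → UCubic n := fun G => Quotient.mk (isoSetoid n) (tr σ G)
  have hcl : ∀ (H : Cubic (Fin n)) (K : Cubic (ZMod k × Bool)), Iso H K →
      Quotient.mk (isoSetoid n) H = cl K := fun H K h =>
    Quotient.sound (s := isoSetoid n) (h.trans (iso_tr σ K))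
  have hadj : ∀ y, (GammaU n).Adj (cl (Neck k)) y → y ∈ ({cl (NA k), cl (NB k)} : Set _) := by
    rintro y ⟨hxy, G, H, hG, hH, hm⟩
    have hi : Iso G (Neck k) :=
      (Quotient.exact (s := isoSetoid n) hG : Iso G (tr σ (Neck k))).trans (iso_tr σ (Neck k)).symm
    obtain ⟨K, hHK, hNK⟩ := move_of_iso hi hm
    rcases classify (hQA k) (hQB k) hNK with h | h | h
    · exact absurd ((hcl H (Neck k) (hHK.trans h)).symm.trans hH) hxy
    · left
      rw [← hH]
      exact hcl H _ (hHK.trans h)
    · right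
      rw [← hH]
      exact hcl H _ (hHK.trans h)
  have hpair : ({cl (NA k), cl (NB k)} : Set (UCubic n)).ncard ≤ 2 := by
    refine (Set.ncard_insert_le _ _).trans ?_
    rw [Set.ncard_singleton]
  have hfin : ({cl (NA k), cl (NB k)} : Set (UCubic n)).Finite := Set.toFinite _
  have hne : cl (NB k) ≠ cl (Neck k) := by
    intro h
    have h1 : Iso (tr σ (NB k)) (tr σ (Neck k)) := Quotient.exact (s := isoSetoid n) h
    exact not_iso_NB k (((iso_tr σ (NB k)).trans h1).trans (iso_tr σ (Neck k)).symm).symm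
  refine ⟨⟨cl (Neck k), ?_⟩, ?_⟩
  · exact (Set.ncard_le_ncard (fun y hy => hadj y hy) hfin).trans hpair
  · have := phi_le_of (GammaU n) (cl (Neck k)) (cl (NB k)) hne 2 _ hfin hpair hadj
    exact_mod_cast this

end Pool.Agent.WHC
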