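import Pool.Agent.WHC.Gen

set_option autoImplicit false
set_option linter.unusedSectionVars false

namespace Pool.Agent.WHC

open Relation

section
variable (k : ℕ) [NeZero k] [Fact (1 < k)]

/-- multiplicities of the necklace: double edges `(i,0)(i,1)`, single edges `(i,1)(i+1,0)` -/
def nm (x y : ZMod k × Bool) : ℕ :=
  if x.2 = true then
    (if y = (x.1, false) then 2 else 0) + (if y = (x.1 + 1, false) then 1 else 0)
  else
    (if y = (x.1, true) then 2 else 0) + (if y = (x.1 - 1, true) then 1 else 0)

theorem nm_t (i : ZMod k) (y : ZMod k × Bool) : nm k (i, true) y =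
    (if y = (i, false) then 2 else 0) + (if y = (i + 1, false) then 1 else 0) := by
  simp [nm]

theorem nm_f (i : ZMod k) (y : ZMod k × Bool) : nm k (i, false) y =
    (if y = (i, true) then 2 else 0) + (if y = (i - 1, true) then 1 else 0) := by
  simp [nm]

theorem one_ne : (1 : ZMod k) ≠ 0 := by
  haveI : Nontrivial (ZMod k) := ZMod.nontrivial k
  exact one_ne_zero

theorem nm_tt (i j : ZMod k) : nm k (i, true) (j, true) = 0 := by simp [nm]
theorem nm_ff (i j : ZMod k) : nm k (i, false) (j, false) = 0 := by simp [nm]
theorem nm_tf (i j : ZMod k) : nm k (i, true) (j, false) =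
    (if j = i then 2 else 0) + (if j = i + 1 then 1 else 0) := by simp [nm]
theorem nm_ft (i j : ZMod k) : nm k (i, false) (j, true) =
    (if j = i then 2 else 0) + (if i = j + 1 then 1 else 0) := by
  have h : (j = i - 1) ↔ (i = j + 1) := by
    constructor
    · rintro rfl; ring
    · rintro rfl; ring
  simp [nm, h]

theorem nm_symm (x y : ZMod k × Bool) : nm k x y = nm k y x := by
  obtain ⟨i, b⟩ := x
  obtain ⟨j, c⟩ := y
  cases b <;> cases c
  · rw [nm_ff, nm_ff]
  · rw [nm_ft, nm_tf]
    simp only [eq_comm]
  · rw [nm_ft, nm_tf]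
    simp only [eq_comm]
  · rw [nm_tt, nm_tt]

theorem nm_deg (x : ZMod k × Bool) : (∑ y, nm k x y) + nm k x x = 3 := by
  obtain ⟨i, b⟩ := x
  cases b
  · rw [nm_ff]
    simp only [nm_f, Finset.sum_add_distrib, Finset.sum_ite_eq', Finset.mem_univ, if_true]
  · rw [nm_tt]
    simp only [nm_t, Finset.sum_add_distrib, Finset.sum_ite_eq', Finset.mem_univ, if_true]

theorem nm_conn (x y : ZMod k × Bool) : ReflTransGen (fun x y => 0 < nm k x y) x y := by
  have hs : ∀ a b, ReflTransGen (fun x y => 0 < nm k x y) a b →
      ReflTransGen (fun x y => 0 < nm k x y) b a := by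
    intro a b h
    induction h with
    | refl => exact ReflTransGen.refl
    | tail _ hbc ih =>
      exact ReflTransGen.head (by rw [nm_symm]; exact hbc) ih
  have h1 : ∀ n : ℕ, ReflTransGen (fun x y => 0 < nm k x y) ((0 : ZMod k), false)
      ((n : ZMod k), false) := by
    intro n
    induction n with
    | zero => simpa using (ReflTransGen.refl (r := fun x y => 0 < nm k x y)
        (a := ((0 : ZMod k), false)))
    | succ n ih =>
      have e1 : 0 < nm k ((n : ZMod k), false) ((n : ZMod k), true) := by
        rw [nm_ft]; simp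
      have e2 : 0 < nm k ((n : ZMod k), true) (((n + 1 : ℕ) : ZMod k), false) := by
        rw [nm_tf]; simp
      exact (ih.tail e1).tail e2
  have h2 : ∀ z : ZMod k × Bool, ReflTransGen (fun x y => 0 < nm k x y) ((0 : ZMod k), false) z := by
    rintro ⟨i, b⟩
    have h3 := h1 i.val
    rw [ZMod.natCast_zmod_val] at h3
    cases b
    · exact h3
    · exact h3.tail (by rw [nm_ft]; simp)
  exact (hs _ _ (h2 x)).trans (h2 y)

/-- The necklace. -/
def Neck : Cubic (ZMod k × Bool) where
  m := nm k
  symm := nm_symm k
  deg := nm_deg k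
  conn := nm_conn k

/-- rotation-type automorphism -/
def rot (c : ZMod k) : (ZMod k × Bool) ≃ (ZMod k × Bool) where
  toFun x := (x.1 + c, x.2)
  invFun x := (x.1 - c, x.2)
  left_inv x := by ext <;> simp
  right_inv x := by ext <;> simp

/-- reflection -/
def rfl' (c : ZMod k) : (ZMod k × Bool) ≃ (ZMod k × Bool) where
  toFun x := (c - x.1, !x.2)
  invFun x := (c - x.1, !x.2)
  left_inv x := by ext <;> simp
  right_inv x := by ext <;> simp

theorem nm_rot (c : ZMod k) (x y : ZMod k × Bool) : nm k (rot k c x) (rot k c y) = nm k x y := by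
  obtain ⟨i, b⟩ := x
  obtain ⟨j, d⟩ := y
  have h1 : (i + c = j + c + 1) ↔ (i = j + 1) := by
    constructor
    · intro h; linear_combination h
    · intro h; linear_combination h
  have h2 : (j + c = i + c + 1) ↔ (j = i + 1) := by
    constructor
    · intro h; linear_combination h
    · intro h; linear_combination h
  cases b <;> cases d <;>
    simp only [rot, Equiv.coe_fn_mk, nm_tt, nm_ff, nm_tf, nm_ft, add_left_inj, h1, h2]

theorem nm_rfl (c : ZMod k) (x y : ZMod k × Bool) :
    nm k (rfl' k c x) (rfl' k c y) = nm k x y := by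
  obtain ⟨i, b⟩ := x
  obtain ⟨j, d⟩ := y
  have h1 : (c - j = c - i + 1) ↔ (i = j + 1) := by
    constructor
    · intro h; linear_combination h
    · intro h; linear_combination h
  have h2 : (c - i = c - j + 1) ↔ (j = i + 1) := by
    constructor
    · intro h; linear_combination h
    · intro h; linear_combination h
  cases b <;> cases d <;>
    simp only [rfl', Equiv.coe_fn_mk, nm_tt, nm_ff, nm_tf, nm_ft, sub_right_inj, h1, h2,
      Bool.not_true, Bool.not_false]

end

end Pool.Agent.WHC
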