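import Pool.Agent.WHC.Neck

set_option autoImplicit false
set_option linter.all false

namespace Pool.Agent.WHC

open Relation

section
variable (k : ℕ) [NeZero k] [Fact (1 < k)]

/-- multiplicities of the sun: a cycle on the vertices `(i,0)`, and at each of them a pendant
vertex `(i,1)` with a loop -/
def sm (x y : ZMod k × Bool) : ℕ :=
  if x.2 = true then
    (if y = (x.1, true) then 1 else 0) + (if y = (x.1, false) then 1 else 0)
  else
    (if y = (x.1, true) then 1 else 0) + (if y = (x.1 + 1, false) then 1 else 0)
      + (if y = (x.1 - 1, false) then 1 else 0)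

theorem sm_t (i : ZMod k) (y : ZMod k × Bool) : sm k (i, true) y =
    (if y = (i, true) then 1 else 0) + (if y = (i, false) then 1 else 0) := by
  simp [sm]

theorem sm_f (i : ZMod k) (y : ZMod k × Bool) : sm k (i, false) y =
    (if y = (i, true) then 1 else 0) + (if y = (i + 1, false) then 1 else 0)
      + (if y = (i - 1, false) then 1 else 0) := by
  simp [sm]

theorem sm_tt (i j : ZMod k) : sm k (i, true) (j, true) = if j = i then 1 else 0 := by simp [sm]
theorem sm_tf (i j : ZMod k) : sm k (i, true) (j, false) = if j = i then 1 else 0 := by simp [sm]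
theorem sm_ft (i j : ZMod k) : sm k (i, false) (j, true) = if j = i then 1 else 0 := by simp [sm]
theorem sm_ff (i j : ZMod k) : sm k (i, false) (j, false) =
    (if j = i + 1 then 1 else 0) + (if i = j + 1 then 1 else 0) := by
  have h : (j = i - 1) ↔ (i = j + 1) := by
    constructor
    · rintro rfl; ring
    · rintro rfl; ring
  simp [sm, h]

theorem sm_symm (x y : ZMod k × Bool) : sm k x y = sm k y x := by
  obtain ⟨i, b⟩ := x
  obtain ⟨j, c⟩ := y
  cases b <;> cases c
  · rw [sm_ff, sm_ff]; ring
  · rw [sm_ft, sm_tf]
    simp only [eq_comm]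
  · rw [sm_ft, sm_tf]
    simp only [eq_comm]
  · rw [sm_tt, sm_tt]
    simp only [eq_comm]

theorem sm_deg (x : ZMod k × Bool) : (∑ y, sm k x y) + sm k x x = 3 := by
  obtain ⟨i, b⟩ := x
  cases b
  · rw [sm_ff]
    have h1 := one_ne k
    simp only [sm_f, Finset.sum_add_distrib, Finset.sum_ite_eq', Finset.mem_univ, if_true]
    have h2 : ¬ (i = i + 1) := by simpa using h1
    simp [h2]
  · rw [sm_tt]
    simp only [sm_t, Finset.sum_add_distrib, Finset.sum_ite_eq', Finset.mem_univ, if_true]

theorem sm_conn (x y : ZMod k × Bool) : ReflTransGen (fun x y => 0 < sm k x y) x y := by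
  have hs : ∀ a b, ReflTransGen (fun x y => 0 < sm k x y) a b →
      ReflTransGen (fun x y => 0 < sm k x y) b a := by
    intro a b h
    induction h with
    | refl => exact ReflTransGen.refl
    | tail _ hbc ih =>
      exact ReflTransGen.head (by rw [sm_symm]; exact hbc) ih
  have h1 : ∀ n : ℕ, ReflTransGen (fun x y => 0 < sm k x y) ((0 : ZMod k), false)
      ((n : ZMod k), false) := by
    intro n
    induction n with
    | zero => simpa using (ReflTransGen.refl (r := fun x y => 0 < sm k x y)
        (a := ((0 : ZMod k), false)))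
    | succ n ih =>
      have e1 : 0 < sm k ((n : ZMod k), false) (((n + 1 : ℕ) : ZMod k), false) := by
        rw [sm_ff]; simp
      exact ih.tail e1
  have h2 : ∀ z : ZMod k × Bool, ReflTransGen (fun x y => 0 < sm k x y) ((0 : ZMod k), false) z := by
    rintro ⟨i, b⟩
    have h3 := h1 i.val
    rw [ZMod.natCast_zmod_val] at h3
    cases b
    · exact h3
    · exact h3.tail (by rw [sm_ft]; simp)
  exact (hs _ _ (h2 x)).trans (h2 y)

/-- The sun. -/
def Sun : Cubic (ZMod k × Bool) where
  m := sm k
  symm := sm_symm k
  deg := sm_deg k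
  conn := sm_conn k

theorem Sun_t (i : ZMod k) : (Sun k).m (i, true) (i, true) = 1 := by
  show sm k (i, true) (i, true) = 1
  rw [sm_tt]; simp

theorem Sun_f (i : ZMod k) : (Sun k).m (i, false) (i, false) = 0 := by
  show sm k (i, false) (i, false) = 0
  rw [sm_ff]
  have h1 := one_ne k
  have h2 : ¬ (i = i + 1) := by simpa using h1
  simp [h2]

end

end Pool.Agent.WHC
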