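import Pool.Agent.WHC.Switch
import Pool.Agent.WHC.Sun

set_option autoImplicit false
set_option linter.all false

namespace Pool.Agent.WHC

open Matrix

theorem ortho_sum {α κ' : Type*} [Fintype α] [Fintype κ'] [DecidableEq κ'] (φ : κ' → α → ℝ)
    (w : α → ℝ) (h : ∀ I J, I ≠ J → ∑ x, w x * (φ I x * φ J x) = 0) (c : κ' → ℝ) :
    ∑ x, w x * (∑ I, c I * φ I x) ^ 2 = ∑ I, c I ^ 2 * ∑ x, w x * (φ I x) ^ 2 := by
  have h1 : ∀ x, w x * (∑ I, c I * φ I x) ^ 2 =
      ∑ I, ∑ J, c I * c J * (w x * (φ I x * φ J x)) := by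
    intro x
    rw [sq, Finset.sum_mul_sum, Finset.mul_sum]
    refine Finset.sum_congr rfl (fun I _ => ?_)
    rw [Finset.mul_sum]
    exact Finset.sum_congr rfl (fun J _ => by ring)
  rw [Finset.sum_congr rfl (fun x _ => h1 x), Finset.sum_comm]
  refine Finset.sum_congr rfl (fun I _ => ?_)
  rw [Finset.sum_comm, Finset.sum_eq_single I]
  · rw [← Finset.mul_sum]
    rw [sq]
    congr 1
    exact Finset.sum_congr rfl (fun x _ => by ring)
  · intro J _ hJ
    rw [← Finset.mul_sum, h I J (Ne.symm hJ), mul_zero]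
  · intro h; exact absurd (Finset.mem_univ I) h

section
variable {n : ℕ} [Fintype (Cubic (Fin n))] {κ : Type*} [DecidableEq κ] (e : κ × Bool ≃ Fin n)

/-- difference of the loop indicators at the two vertices of the `i`-th pair -/
noncomputable def d (i : κ) (G : Cubic (Fin n)) : ℝ :=
  (G.m (e (i, true)) (e (i, true)) : ℝ) - (G.m (e (i, false)) (e (i, false)) : ℝ)

/-- the product of the differences -/
noncomputable def FF (I : Finset κ) (G : Cubic (Fin n)) : ℝ := ∏ i ∈ I, d e i G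

theorem d_self (i : κ) (G : Cubic (Fin n)) :
    d e i (tr (Equiv.swap (e (i, true)) (e (i, false))) G) = - d e i G := by
  simp [d, tr]

theorem d_ne {i j : κ} (h : j ≠ i) (G : Cubic (Fin n)) :
    d e j (tr (Equiv.swap (e (i, true)) (e (i, false))) G) = d e j G := by
  have h1 : ∀ β β' : Bool, e (j, β) ≠ e (i, β') := by
    intro β β' hc
    exact h (congrArg Prod.fst (e.injective hc))
  simp only [d, tr, Equiv.symm_swap]
  rw [Equiv.swap_apply_of_ne_of_ne (h1 _ _) (h1 _ _),
    Equiv.swap_apply_of_ne_of_ne (h1 _ _) (h1 _ _)]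

theorem FF_swap (i : κ) (I : Finset κ) (G : Cubic (Fin n)) :
    FF e I (tr (Equiv.swap (e (i, true)) (e (i, false))) G) =
      (if i ∈ I then -1 else 1) * FF e I G := by
  unfold FF
  split_ifs with h
  · rw [← Finset.mul_prod_erase I _ h, ← Finset.mul_prod_erase I (fun i => d e i G) h, d_self,
      Finset.prod_congr rfl (fun j hj => d_ne e (Finset.ne_of_mem_erase hj) G)]
    ring
  · rw [one_mul]
    exact Finset.prod_congr rfl (fun j hj => d_ne e (i := i) (j := j)
      (fun hc => h (by rw [← hc]; exact hj)) G)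

theorem exists_diff {I J : Finset κ} (h : I ≠ J) :
    ∃ i, ((if i ∈ I then -1 else 1 : ℝ)) * (if i ∈ J then -1 else 1 : ℝ) = -1 := by
  by_contra hc
  push Not at hc
  apply h
  ext i
  have := hc i
  by_cases h1 : i ∈ I <;> by_cases h2 : i ∈ J <;> simp_all

theorem FF_orth {I J : Finset κ} (h : I ≠ J) : ∑ G : Cubic (Fin n), (1 : ℝ) * (FF e I G * FF e J G) = 0 := by
  obtain ⟨i, hi⟩ := exists_diff h
  have h1 : ∑ G : Cubic (Fin n), (1 : ℝ) * (FF e I G * FF e J G) =
      - ∑ G : Cubic (Fin n), (1 : ℝ) * (FF e I G * FF e J G) := by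
    conv_lhs => rw [← Equiv.sum_comp (trE (Equiv.swap (e (i, true)) (e (i, false))))]
    rw [← Finset.sum_neg_distrib]
    refine Finset.sum_congr rfl (fun G _ => ?_)
    show 1 * (FF e I (tr (Equiv.swap (e (i, true)) (e (i, false))) G) *
      FF e J (tr (Equiv.swap (e (i, true)) (e (i, false))) G)) = _
    rw [FF_swap, FF_swap]
    linear_combination (FF e I G * FF e J G) * hi
  linarith

theorem adj_tr (σ : Equiv.Perm (Fin n)) (G H : Cubic (Fin n)) :
    (GammaL n).Adj (tr σ G) (tr σ H) ↔ (GammaL n).Adj G H := by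
  constructor
  · rintro ⟨h1, h2⟩
    refine ⟨fun h => h1 (by rw [h]), ?_⟩
    have := h2.tr σ.symm
    have e1 : tr σ.symm (tr σ G) = G := (trE σ).left_inv G
    have e2 : tr σ.symm (tr σ H) = H := (trE σ).left_inv H
    rwa [e1, e2] at this
  · rintro ⟨h1, h2⟩
    exact ⟨fun h => h1 ((trE σ).injective h), h2.tr σ⟩

open Classical in
/-- indicator of adjacency -/
noncomputable def ad (x : Cubic (Fin n) × Cubic (Fin n)) : ℝ :=
  if (GammaL n).Adj x.1 x.2 then 1 else 0

theorem EE_orth {I J : Finset κ} (h : I ≠ J) :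
    ∑ x : Cubic (Fin n) × Cubic (Fin n), ad x *
      ((FF e I x.1 - FF e I x.2) * (FF e J x.1 - FF e J x.2)) = 0 := by
  obtain ⟨i, hi⟩ := exists_diff h
  let τ := trE (Equiv.swap (e (i, true)) (e (i, false)))
  have h1 : ∑ x : Cubic (Fin n) × Cubic (Fin n), ad x *
      ((FF e I x.1 - FF e I x.2) * (FF e J x.1 - FF e J x.2)) =
      - ∑ x : Cubic (Fin n) × Cubic (Fin n), ad x *
      ((FF e I x.1 - FF e I x.2) * (FF e J x.1 - FF e J x.2)) := by
    conv_lhs => rw [← Equiv.sum_comp (Equiv.prodCongr τ τ)]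
    rw [← Finset.sum_neg_distrib]
    refine Finset.sum_congr rfl (fun x _ => ?_)
    obtain ⟨G, H⟩ := x
    have had : ad (Equiv.prodCongr τ τ (G, H)) = ad (G, H) := by
      have := adj_tr (Equiv.swap (e (i, true)) (e (i, false))) G H
      unfold ad
      by_cases hh : (GammaL n).Adj G H
      · exact (if_pos (this.2 hh)).trans (if_pos hh).symm
      · exact (if_neg (fun hc => hh (this.1 hc))).trans (if_neg hh).symm
    rw [had]
    show ad (G, H) * ((FF e I (tr (Equiv.swap (e (i, true)) (e (i, false))) G) -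
      FF e I (tr (Equiv.swap (e (i, true)) (e (i, false))) H)) *
      (FF e J (tr (Equiv.swap (e (i, true)) (e (i, false))) G) -
      FF e J (tr (Equiv.swap (e (i, true)) (e (i, false))) H))) = _
    rw [FF_swap, FF_swap, FF_swap, FF_swap]
    linear_combination (ad (G, H) * ((FF e I G - FF e I H) * (FF e J G - FF e J H))) * hi
  linarith

theorem d_sq01 (i : κ) (G : Cubic (Fin n)) : d e i G ^ 2 = 0 ∨ d e i G ^ 2 = 1 := by
  unfold d
  rcases Nat.le_one_iff_eq_zero_or_eq_one.1 (deg1 G (e (i, true))) with h | h <;>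
    rcases Nat.le_one_iff_eq_zero_or_eq_one.1 (deg1 G (e (i, false))) with h' | h' <;>
    simp [h, h']

theorem D01 (J : Finset κ) (G : Cubic (Fin n)) :
    (∏ j ∈ J, d e j G ^ 2) = 0 ∨ (∏ j ∈ J, d e j G ^ 2) = 1 := by
  induction J using Finset.induction_on with
  | empty => right; simp
  | insert a s ha ih =>
    rw [Finset.prod_insert ha]
    rcases ih with h | h <;> rcases d_sq01 e a G with h' | h' <;> simp [h, h']

/-- an exit at a vertex of the pair `i` does not change the other pairs -/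
theorem d_P {i j : κ} {β : Bool} (h : j ≠ i) {G H : Cubic (Fin n)} {w b : Fin n}
    (hP : P (e (i, β)) w b G H) : d e j H = d e j G := by
  have h1 : ∀ β' : Bool, e (j, β') ≠ e (i, β) := by
    intro β' hc
    exact h (congrArg Prod.fst (e.injective hc))
  unfold d
  rw [(P_loops hP).2 _ (h1 true), (P_loops hP).2 _ (h1 false)]

theorem d_P_self {i : κ} {β : Bool} {G H : Cubic (Fin n)} {w b : Fin n}
    (hP : P (e (i, β)) w b G H) : (d e i G - d e i H) ^ 2 = 1 := by
  have hne : e (i, true) ≠ e (i, false) := fun hc => by simpa using e.injective hc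
  have h1 := P_loops hP
  have h2 := hP.2.2.2.1
  cases β
  · have h3 := h1.2 _ hne
    unfold d
    rw [h1.1, h3, h2]
    norm_num
  · have h3 := h1.2 _ hne.symm
    unfold d
    rw [h1.1, h3, h2]
    norm_num

/-- the loop differences only depend on the loops -/
theorem d_loops {i j : κ} {β : Bool} (h : j ≠ i) {G H : Cubic (Fin n)}
    (hz : ∀ z, z ≠ e (i, β) → H.m z z = G.m z z) : d e j H = d e j G := by
  have h1 : ∀ β' : Bool, e (j, β') ≠ e (i, β) := by
    intro β' hc
    exact h (congrArg Prod.fst (e.injective hc))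
  unfold d
  rw [hz _ (h1 true), hz _ (h1 false)]

theorem key (h3 : 3 ≤ n) (i : κ) (J : Finset κ) (hi : i ∉ J) :
    ∑ β : Bool, ∑ G : Cubic (Fin n), ∑ H : Cubic (Fin n),
      WHC.I (e (i, β)) G H * (∏ j ∈ J, d e j G ^ 2) ≤
      (2 + eps n) * ∑ G : Cubic (Fin n), (∏ j ∈ J, d e j G ^ 2) * d e i G ^ 2 := by
  have hne : e (i, true) ≠ e (i, false) := fun hc => by simpa using e.injective hc
  have hD : ∀ (β : Bool) (G H : Cubic (Fin n)), (∀ z, z ≠ e (i, β) → H.m z z = G.m z z) →
      (∏ j ∈ J, d e j H ^ 2) = ∏ j ∈ J, d e j G ^ 2 := by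
    intro β G H hz
    refine Finset.prod_congr rfl (fun j hj => ?_)
    rw [d_loops e (i := i) (j := j) (β := β) (fun hc => hi (by rw [← hc]; exact hj)) hz]
  have h0 : ∀ G : Cubic (Fin n), 0 ≤ ∏ j ∈ J, d e j G ^ 2 :=
    fun G => Finset.prod_nonneg (fun j _ => sq_nonneg _)
  have k1 := exits_gen2 h3 hne (fun G => ∏ j ∈ J, d e j G ^ 2) h0 (hD true)
  have k2 := exits_gen2 h3 hne.symm (fun G => ∏ j ∈ J, d e j G ^ 2) h0 (hD false)
  rw [Fintype.sum_bool]
  refine (add_le_add k1 k2).trans (le_of_eq ?_)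
  have e0 : ∑ G : Cubic (Fin n), (∏ j ∈ J, d e j G ^ 2) * d e i G ^ 2 =
      (∑ G : Cubic (Fin n), (∏ j ∈ J, d e j G ^ 2) *
        ((G.m (e (i, true)) (e (i, true)) : ℝ) * (1 - (G.m (e (i, false)) (e (i, false)) : ℝ))))
      + ∑ G : Cubic (Fin n), (∏ j ∈ J, d e j G ^ 2) *
        ((G.m (e (i, false)) (e (i, false)) : ℝ) * (1 - (G.m (e (i, true)) (e (i, true)) : ℝ))) := by
    rw [← Finset.sum_add_distrib]
    refine Finset.sum_congr rfl (fun G _ => ?_)
    unfold d
    rcases Nat.le_one_iff_eq_zero_or_eq_one.1 (deg1 G (e (i, true))) with h | h <;>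
      rcases Nat.le_one_iff_eq_zero_or_eq_one.1 (deg1 G (e (i, false))) with h' | h' <;>
      rw [h, h'] <;> push_cast <;> ring
  have e1 : ∑ G : Cubic (Fin n), (∏ j ∈ J, d e j G ^ 2) *
        ((1 - (G.m (e (i, true)) (e (i, true)) : ℝ)) * (G.m (e (i, false)) (e (i, false)) : ℝ)) =
      ∑ G : Cubic (Fin n), (∏ j ∈ J, d e j G ^ 2) *
        ((G.m (e (i, false)) (e (i, false)) : ℝ) * (1 - (G.m (e (i, true)) (e (i, true)) : ℝ))) :=
    Finset.sum_congr rfl (fun G _ => by ring)
  have e2 : ∑ G : Cubic (Fin n), (∏ j ∈ J, d e j G ^ 2) *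
        ((1 - (G.m (e (i, false)) (e (i, false)) : ℝ)) * (G.m (e (i, true)) (e (i, true)) : ℝ)) =
      ∑ G : Cubic (Fin n), (∏ j ∈ J, d e j G ^ 2) *
        ((G.m (e (i, true)) (e (i, true)) : ℝ) * (1 - (G.m (e (i, false)) (e (i, false)) : ℝ))) :=
    Finset.sum_congr rfl (fun G _ => by ring)
  rw [e0, e1, e2]
  ring

end

end Pool.Agent.WHC
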