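import Pool.Agent.WHC.Fin

set_option autoImplicit false
set_option linter.all false

namespace Pool.Agent.WHC

open Matrix

section
variable {n : ℕ}

theorem exit_at (h3 : 3 ≤ n) (o : Fin n) {G H : Cubic (Fin n)} (h : Move G H)
    (hG : G.m o o = 1) (hH : H.m o o ≠ 1) : ∃ w b, P o w b G H := by
  have h3' : 3 ≤ Fintype.card (Fin n) := by simpa using h3
  rcases move_cases h3' h with h | ⟨v, w, b, h⟩ | ⟨v, w, b, h⟩
  · exact absurd ((h o).symm.trans hG) hH
  · by_cases hv : o = v
    · subst hv; exact ⟨w, b, h⟩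
    · exact absurd (((P_loops h).2 o hv).trans hG) hH
  · by_cases hv : o = v
    · subst hv
      exact absurd h.2.2.2.1 hH
    · exact absurd (((P_loops h).2 o hv).symm.trans hG) hH

theorem phiL_le (h3 : 3 ≤ n) (o : Fin n) (hne : ∃ G : Cubic (Fin n), G.m o o = 1) :
    phi (GammaL n) ≤ 2 := by
  classical
  haveI : Finite (Cubic (Fin n)) := inferInstance
  letI : Fintype (Cubic (Fin n)) := Fintype.ofFinite _
  have h3' : 3 ≤ Fintype.card (Fin n) := by simpa using h3
  let X : Set (Cubic (Fin n)) := {G | G.m o o = 1}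
  let Xf : Finset (Cubic (Fin n)) := Finset.univ.filter (fun G => G.m o o = 1)
  let Yf : Finset (Cubic (Fin n)) := Finset.univ.filter (fun G => G.m o o ≠ 1)
  have hX : X.ncard = Xf.card := by
    rw [← Set.ncard_coe_finset]
    congr 1
    ext G
    simp [X, Xf]
  have hY : Xᶜ.ncard = Yf.card := by
    rw [← Set.ncard_coe_finset]
    congr 1
    ext G
    simp [X, Yf]
  let R : Finset (Cubic (Fin n) × Cubic (Fin n)) :=
    Finset.univ.filter (fun x => ∃ w b, P o w b x.1 x.2)
  have hsub : boundary (GammaL n) X ⊆ ((R.image (fun x => s(x.1, x.2)) : Finset _) : Set _) := by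
    rintro e ⟨he, G, hG, H, hH, rfl⟩
    have hadj : (GammaL n).Adj G H := by simpa using he
    have hP := exit_at h3 o hadj.2 hG hH
    simp only [Finset.coe_image, Set.mem_image, Finset.mem_coe]
    exact ⟨(G, H), Finset.mem_filter.2 ⟨Finset.mem_univ _, hP⟩, rfl⟩
  have hb : (boundary (GammaL n) X).ncard ≤ R.card := by
    refine (Set.ncard_le_ncard hsub (Finset.finite_toSet _)).trans ?_
    rw [Set.ncard_coe_finset]
    exact Finset.card_image_le
  have hR1 : R.card ≤ 2 * Xf.card := by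
    apply Finset.card_le_mul_card_image_of_maps_to (f := Prod.fst)
    · rintro ⟨G, H⟩ hx
      obtain ⟨w, b, hP⟩ := (Finset.mem_filter.1 hx).2
      exact Finset.mem_filter.2 ⟨Finset.mem_univ _, hP.2.2.2.1⟩
    · intro G hG
      have hc : (Finset.filter (fun a => a.1 = G) R).card =
          ((Finset.filter (fun a => a.1 = G) R).image Prod.snd).card := by
        rw [Finset.card_image_of_injOn]
        rintro ⟨a, b⟩ hx ⟨a', b'⟩ hx' hab
        have e1 := (Finset.mem_filter.1 hx).2
        have e2 := (Finset.mem_filter.1 hx').2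
        simp only at e1 e2 hab
        rw [e1, e2, hab]
      rw [hc]
      apply card_exit o G
      intro H hH
      simp only [Finset.mem_image, Finset.mem_filter] at hH
      obtain ⟨⟨a, b⟩, ⟨ha, hab⟩, rfl⟩ := hH
      simp only at hab
      subst hab
      exact (Finset.mem_filter.1 ha).2
  have hR2 : R.card ≤ Yf.card := by
    apply Finset.card_le_card_of_injOn Prod.snd
    · rintro ⟨G, H⟩ hx
      obtain ⟨w, b, hP⟩ := (Finset.mem_filter.1 hx).2
      refine Finset.mem_filter.2 ⟨Finset.mem_univ _, ?_⟩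
      show H.m o o ≠ 1
      have : H.m o o = 0 := (P_loops hP).1
      omega
    · rintro ⟨G, H⟩ hx ⟨G', H'⟩ hx' hab
      obtain ⟨w, b, hP⟩ := (Finset.mem_filter.1 hx).2
      obtain ⟨w', b', hP'⟩ := (Finset.mem_filter.1 hx').2
      simp only at hab hP hP'
      subst hab
      rw [P_left hP hP']
  obtain ⟨G0, hG0⟩ := hne
  obtain ⟨w0, b0, H0, hH0⟩ := exists_P h3' G0 o hG0
  have hH00 : H0.m o o = 0 := (P_loops hH0).1
  have hXpos : 0 < Xf.card := Finset.card_pos.2 ⟨G0, Finset.mem_filter.2 ⟨Finset.mem_univ _, hG0⟩⟩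
  have hYpos : 0 < Yf.card := Finset.card_pos.2 ⟨H0, Finset.mem_filter.2 ⟨Finset.mem_univ _, by
    omega⟩⟩
  have hbd : BddBelow {r | ∃ X : Set (Cubic (Fin n)), X.Nonempty ∧ X ≠ Set.univ ∧
      r = phiSet (GammaL n) X} := by
    refine ⟨0, ?_⟩
    rintro r ⟨X, -, -, rfl⟩
    unfold phiSet
    positivity
  have hmem : phiSet (GammaL n) X ∈ {r | ∃ X : Set (Cubic (Fin n)), X.Nonempty ∧ X ≠ Set.univ ∧
      r = phiSet (GammaL n) X} := by
    refine ⟨X, ⟨G0, hG0⟩, ?_, rfl⟩
    intro hu
    have h1 : H0 ∈ X := by rw [hu]; trivial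
    have h2 : H0.m o o = 1 := h1
    omega
  refine (csInf_le hbd hmem).trans ?_
  unfold phiSet
  rw [hX, hY]
  have hmin : 0 < min (Xf.card : ℝ) (Yf.card : ℝ) := by
    apply lt_min <;> exact_mod_cast (by assumption)
  rw [div_le_iff₀ hmin]
  have c1 : ((boundary (GammaL n) X).ncard : ℝ) ≤ 2 * (Xf.card : ℝ) := by
    exact_mod_cast hb.trans hR1
  have c2 : ((boundary (GammaL n) X).ncard : ℝ) ≤ 2 * (Yf.card : ℝ) := by
    have : (boundary (GammaL n) X).ncard ≤ 2 * Yf.card := by
      have := hb.trans hR2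
      omega
    exact_mod_cast this
  rcases le_total (Xf.card : ℝ) (Yf.card : ℝ) with h | h
  · rw [min_eq_left h]; exact c1
  · rw [min_eq_right h]; exact c2

end

section
variable {n : ℕ} [Fintype (Cubic (Fin n))] (k : ℕ) [NeZero k] [Fact (1 < k)]

theorem pos_FF (e : ZMod k × Bool ≃ Fin n) (K : Finset (ZMod k)) :
    0 < ∑ G : Cubic (Fin n), (FF e K G) ^ 2 := by
  have h1 : ∀ i, d e i (tr e (Sun k)) = 1 := by
    intro i
    unfold d
    simp [tr, Sun_t, Sun_f]
  have h2 : FF e K (tr e (Sun k)) = 1 := by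
    unfold FF
    exact Finset.prod_eq_one (fun i _ => h1 i)
  refine Finset.sum_pos' (fun G _ => sq_nonneg _) ⟨tr e (Sun k), Finset.mem_univ _, ?_⟩
  rw [h2]; norm_num

theorem pos_p (e : ZMod k × Bool ≃ Fin n) : 0 < p (e (0, true)) (e (0, true)) := by
  unfold p
  refine Finset.sum_pos' (fun G _ => by positivity) ⟨tr e (Sun k), Finset.mem_univ _, ?_⟩
  simp [tr, Sun_t]

end

theorem card_subsets (κ : Type*) [Fintype κ] [DecidableEq κ] (t : ℕ) :
    Fintype.card {K : Finset κ // K.card ≤ t} =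
      ∑ s ∈ Finset.range (t + 1), (Fintype.card κ).choose s := by
  rw [Fintype.card_subtype,
    Finset.card_eq_sum_card_fiberwise (f := Finset.card) (t := Finset.range (t + 1))
      (fun K hK => by
        have := (Finset.mem_filter.1 hK).2
        simp only [Finset.coe_range, Set.mem_Iio]
        omega)]
  refine Finset.sum_congr rfl (fun s hs => ?_)
  rw [← Finset.card_univ, ← Finset.card_powersetCard]
  congr 1
  ext K
  simp only [Finset.mem_filter, Finset.mem_univ, true_and, Finset.mem_powersetCard,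
    Finset.subset_univ]
  have := Finset.mem_range.1 hs
  constructor
  · rintro ⟨_, h⟩; exact h
  · intro h; exact ⟨by omega, h⟩

theorem lam_le {V : Type*} [Fintype V] [DecidableEq V] (Γ : SimpleGraph V) [DecidableRel Γ.Adj]
    {k : ℕ} (hk : 1 ≤ k) {t : ℝ} (h : k ≤ eigCount Γ t) : lam Γ k ≤ t := by
  refine csInf_le ⟨0, ?_⟩ h
  intro s hs
  by_contra hneg
  push Not at hneg
  have h0 : eigCount Γ s = 0 := by
    unfold eigCount
    rw [Finset.card_eq_zero, Finset.filter_eq_empty_iff]
    intro i _ hi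
    have := (SimpleGraph.posSemidef_lapMatrix ℝ Γ).eigenvalues_nonneg i
    have h1 := lt_of_le_of_lt hi hneg
    exact absurd this (not_le.2 h1)
  have hs' : k ≤ eigCount Γ s := hs
  omega

theorem mainL (n : ℕ) (hn : Even n) (h4 : 4 ≤ n) [Fintype (Cubic (Fin n))]
    [DecidableEq (Cubic (Fin n))] [DecidableRel (GammaL n).Adj] :
    phi (GammaL n) ≤ 2 ∧ n ≤ eigCount (GammaL n) (2 + eps n) ∧
    ∀ t : ℕ, ∑ s ∈ Finset.range (t + 1), (n / 2).choose s ≤
      eigCount (GammaL n) ((2 + eps n) * (t : ℝ)) := by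
  obtain ⟨k, hk⟩ := hn
  haveI : NeZero k := ⟨by omega⟩
  haveI : Fact (1 < k) := ⟨by omega⟩
  have hcard : Fintype.card (ZMod k × Bool) = n := by
    rw [Fintype.card_prod, ZMod.card, Fintype.card_bool]
    omega
  let e : (ZMod k × Bool) ≃ Fin n := Fintype.equivFinOfCardEq hcard
  refine ⟨?_, ?_, ?_⟩
  · exact phiL_le (by omega) (e (0, true)) ⟨tr e (Sun k), by simp [tr, Sun_t]⟩
  · exact spectrum_one h4 _ (pos_p k e)
  · intro t
    have := spectrum_pairs e (by omega) (pos_FF k e) t
    rw [card_subsets, ZMod.card] at this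
    have hk2 : n / 2 = k := by omega
    rw [hk2]
    exact this

end Pool.Agent.WHC
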