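import Pool.Agent.WHC.Lap

set_option autoImplicit false
set_option linter.all false

namespace Pool.Agent.WHC

open Relation

section
variable {V : Type*} [Fintype V] [DecidableEq V]

/-- switching: the loop at `v` and the edge `x y` are replaced by `v x` and `v y` -/
def Sw (v x y : V) (G H : Cubic V) : Prop :=
  x ≠ v ∧ y ≠ v ∧ x ≠ y ∧ G.m v v = 1 ∧
    ∀ i j, H.m i j + E v v i j + E x y i j = G.m i j + E v x i j + E v y i j

theorem exists_Sw (G : Cubic V) {v x y : V} (hx : x ≠ v) (hy : y ≠ v) (hxy : x ≠ y)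
    (hv : G.m v v = 1) (h : 1 ≤ G.m x y) : ∃ H, Sw v x y G H := by
  have E1 : ∀ x y i j : V, E x y i j ≤ 1 := by
    intro x y i j
    unfold E
    split_ifs <;> omega
  have h' : 1 ≤ G.m y x := by rw [G.symm]; exact h
  have hle : ∀ i j, E v v i j + E x y i j ≤ G.m i j := by
    intro i j
    by_cases hb : i = v ∧ j = v
    · rw [hb.1, hb.2]
      have e2 : E x y v v = 0 := by
        unfold E; rw [if_neg]; rintro (⟨h, _⟩ | ⟨h, _⟩)
        · exact hx h.symm
        · exact hy h.symm
      have := E1 v v v v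
      omega
    · have e1 : E v v i j = 0 := by unfold E; rw [if_neg]; tauto
      by_cases hc : (i = x ∧ j = y) ∨ (i = y ∧ j = x)
      · have := E1 x y i j
        rcases hc with ⟨rfl, rfl⟩ | ⟨rfl, rfl⟩ <;> omega
      · have e2 : E x y i j = 0 := by unfold E; rw [if_neg hc]
        omega
  refine ⟨⟨fun i j => (G.m i j - (E v v i j + E x y i j)) + E v x i j + E v y i j, ?_, ?_, ?_⟩,
    hx, hy, hxy, hv, fun i j => ?_⟩
  · intro i j
    have := G.symm i j
    have h1 := E_flip v v i j
    have h2 := E_flip x y i j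
    have h3 := E_flip v x i j
    have h4 := E_flip v y i j
    show _ = _
    omega
  · intro i
    have hG : ∀ j, G.m i j = (G.m i j - (E v v i j + E x y i j)) + E v v i j + E x y i j :=
      fun j => by have := hle i j; omega
    have h := G.deg i
    rw [Finset.sum_congr rfl (fun j _ => hG j)] at h
    simp only [Finset.sum_add_distrib] at h ⊢
    have h0 := hG i
    have h1 := E_deg v v i
    have h2 := E_deg x y i
    have h3 := E_deg v x i
    have h4 := E_deg v y i
    omega
  · intro i j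
    have key : ∀ a b, 0 < G.m a b →
        ReflTransGen (fun a b => 0 < (G.m a b - (E v v a b + E x y a b)) + E v x a b + E v y a b)
          a b := by
      intro a b hab
      by_cases hR : 0 < G.m a b - (E v v a b + E x y a b)
      · exact ReflTransGen.single (by omega)
      · by_cases hvv : a = v ∧ b = v
        · rw [hvv.1, hvv.2]
        · have e1 : E v v a b = 0 := by unfold E; rw [if_neg]; tauto
          have e2 : 0 < E x y a b := by omega
          have s1 : ReflTransGen (fun a b => 0 < (G.m a b - (E v v a b + E x y a b)) + E v x a b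
              + E v y a b) x v := ReflTransGen.single (by
                have := E_self v x; have := E_flip v x v x; omega)
          have s2 : ReflTransGen (fun a b => 0 < (G.m a b - (E v v a b + E x y a b)) + E v x a b
              + E v y a b) v x := ReflTransGen.single (by have := E_self v x; omega)
          have s3 : ReflTransGen (fun a b => 0 < (G.m a b - (E v v a b + E x y a b)) + E v x a b
              + E v y a b) y v := ReflTransGen.single (by
                have := E_self v y; have := E_flip v y v y; omega)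
          have s4 : ReflTransGen (fun a b => 0 < (G.m a b - (E v v a b + E x y a b)) + E v x a b
              + E v y a b) v y := ReflTransGen.single (by have := E_self v y; omega)
          unfold E at e2
          split_ifs at e2 with hc
          · rcases hc with ⟨rfl, rfl⟩ | ⟨rfl, rfl⟩
            · exact s1.trans s4
            · exact s3.trans s2
          · omega
    have h := G.conn i j
    induction h with
    | refl => exact ReflTransGen.refl
    | tail _ hbc ih => exact ih.trans (key _ _ hbc)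
  · have := hle i j
    show (G.m i j - (E v v i j + E x y i j)) + E v x i j + E v y i j + E v v i j + E x y i j = _
    omega

theorem Sw_loops {v x y : V} {G H : Cubic V} (h : Sw v x y G H) :
    H.m v v = 0 ∧ ∀ z, z ≠ v → H.m z z = G.m z z := by
  obtain ⟨hx, hy, hxy, h1, hf⟩ := h
  constructor
  · have := hf v v
    simp [E, hx, hy, hxy, hx.symm, hy.symm, hxy.symm] at this
    omega
  · intro z hz
    have := hf z z
    have e1 : E v v z z = 0 := by simp [E, hz]
    have e2 : E x y z z = 0 := by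
      unfold E; rw [if_neg]; rintro (⟨rfl, h⟩ | ⟨rfl, h⟩)
      · exact hxy h
      · exact hxy h.symm
    have e3 : E v x z z = 0 := by simp [E, hz]
    have e4 : E v y z z = 0 := by simp [E, hz]
    omega

theorem Sw_nbr {v x y : V} {G H : Cubic V} (h : Sw v x y G H) : 0 < H.m v x ∧ 0 < H.m v y := by
  obtain ⟨hx, hy, hxy, h1, hf⟩ := h
  constructor
  · have := hf v x
    simp [E, hx, hy, hxy, hx.symm, hy.symm, hxy.symm] at this
    omega
  · have := hf v y
    simp [E, hx, hy, hxy, hx.symm, hy.symm, hxy.symm] at this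
    omega

theorem Sw_left {v x y : V} {G G' H : Cubic V} (h : Sw v x y G H) (h' : Sw v x y G' H) :
    G = G' := by
  obtain ⟨hx, hy, hxy, h1, hf⟩ := h
  obtain ⟨_, _, _, h1', hf'⟩ := h'
  apply cubic_ext
  intro i j
  have := hf i j
  have := hf' i j
  omega

theorem exists_nbr (h3 : 3 ≤ Fintype.card V) (G : Cubic V) (x : V) : ∃ y, y ≠ x ∧ 1 ≤ G.m x y := by
  by_contra hc
  push Not at hc
  have h := G.deg x
  rw [Finset.sum_eq_single x (fun j _ hj => by have := hc j hj; omega)
    (fun h => absurd (Finset.mem_univ x) h)] at h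
  omega

end

section
variable {n : ℕ} [Fintype (Cubic (Fin n))]

open Classical in
/-- indicator of a switching -/
noncomputable def J (v : Fin n) (x y : Fin n) (G H : Cubic (Fin n)) : ℝ :=
  if Sw v x y G H then 1 else 0

theorem J_nonneg (v x y : Fin n) (G H : Cubic (Fin n)) : 0 ≤ J v x y G H := by
  unfold J; split_ifs <;> norm_num

theorem switch_lower (h3 : 3 ≤ n) (v : Fin n) (G : Cubic (Fin n)) :
    ((n : ℝ) - 2) * (G.m v v : ℝ) ≤ ∑ x, ∑ y, ∑ H, J v x y G H := by
  have h3' : 3 ≤ Fintype.card (Fin n) := by simpa using h3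
  have hnn : 0 ≤ ∑ x, ∑ y, ∑ H, J v x y G H :=
    Finset.sum_nonneg (fun x _ => Finset.sum_nonneg (fun y _ =>
      Finset.sum_nonneg (fun H _ => J_nonneg _ _ _ _ _)))
  rcases Nat.le_one_iff_eq_zero_or_eq_one.1 (deg1 G v) with h | h
  · rw [h]; simpa using hnn
  · rw [h]
    obtain ⟨w, hwv, hw1⟩ := exists_nbr h3' G v
    have hone : ∀ x ∈ (Finset.univ.erase v).erase w, (1 : ℝ) ≤ ∑ y, ∑ H, J v x y G H := by
      intro x hx
      have hxw : x ≠ w := Finset.ne_of_mem_erase hx
      have hxv : x ≠ v := Finset.ne_of_mem_erase (Finset.mem_of_mem_erase hx)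
      obtain ⟨y, hyx, hy1⟩ := exists_nbr h3' G x
      have hyv : y ≠ v := by
        rintro rfl
        have h5 := deg3 G y hwv.symm hxv.symm hxw.symm
        have h6 : 1 ≤ G.m y x := by rw [G.symm]; exact hy1
        omega
      obtain ⟨H, hH⟩ := exists_Sw G hxv hyv hyx.symm h hy1
      have h7 : J v x y G H = 1 := by unfold J; rw [if_pos hH]
      calc (1 : ℝ) = J v x y G H := h7.symm
        _ ≤ ∑ H, J v x y G H := Finset.single_le_sum (f := fun H => J v x y G H)
            (fun H _ => J_nonneg _ _ _ _ _) (Finset.mem_univ H)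
        _ ≤ ∑ y, ∑ H, J v x y G H := Finset.single_le_sum (f := fun y => ∑ H, J v x y G H)
            (fun y _ => Finset.sum_nonneg (fun H _ => J_nonneg _ _ _ _ _)) (Finset.mem_univ y)
    have h8 : (((Finset.univ.erase v).erase w).card : ℝ) * 1 ≤
        ∑ x ∈ (Finset.univ.erase v).erase w, ∑ y, ∑ H, J v x y G H := by
      rw [← nsmul_eq_mul]
      exact Finset.card_nsmul_le_sum _ _ _ hone
    have h9 : ∑ x ∈ (Finset.univ.erase v).erase w, ∑ y, ∑ H, J v x y G H ≤
        ∑ x, ∑ y, ∑ H, J v x y G H :=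
      Finset.sum_le_sum_of_subset_of_nonneg (Finset.subset_univ _) (fun x _ _ =>
        Finset.sum_nonneg (fun y _ => Finset.sum_nonneg (fun H _ => J_nonneg _ _ _ _ _)))
    have h10 : ((Finset.univ.erase v).erase w).card = n - 2 := by
      rw [Finset.card_erase_of_mem (Finset.mem_erase.2 ⟨hwv, Finset.mem_univ w⟩),
        Finset.card_erase_of_mem (Finset.mem_univ v), Finset.card_univ, Fintype.card_fin]
      omega
    rw [h10] at h8
    have h11 : ((n - 2 : ℕ) : ℝ) = (n : ℝ) - 2 := by
      rw [Nat.cast_sub (by omega)]; norm_num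
    rw [h11] at h8
    push_cast
    linarith

theorem switch_upper (v : Fin n) (H : Cubic (Fin n)) :
    ∑ x, ∑ y, ∑ G, J v x y G H ≤ 6 * (1 - (H.m v v : ℝ)) := by
  classical
  rcases Nat.le_one_iff_eq_zero_or_eq_one.1 (deg1 H v) with h | h
  · rw [h]
    let N : Finset (Fin n) := Finset.univ.filter (fun x => 0 < H.m v x)
    have hN : N.card ≤ 3 := by
      have hd := H.deg v
      have h1 : ∑ j ∈ N, H.m v j ≤ ∑ j, H.m v j :=
        Finset.sum_le_sum_of_subset (Finset.subset_univ _)
      have h2 : N.card * 1 ≤ ∑ j ∈ N, H.m v j := by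
        rw [← smul_eq_mul]
        apply Finset.card_nsmul_le_sum
        intro x hx
        exact (Finset.mem_filter.1 hx).2
      omega
    have hpt : ∀ x y, ∑ G, J v x y G H ≤ if (x, y) ∈ N.offDiag then 1 else 0 := by
      intro x y
      unfold J
      rw [Finset.sum_boole]
      split_ifs with hm
      · have : (Finset.univ.filter (fun G => Sw v x y G H)).card ≤ 1 := by
          rw [Finset.card_le_one]
          intro G hG G' hG'
          exact Sw_left (Finset.mem_filter.1 hG).2 (Finset.mem_filter.1 hG').2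
        exact_mod_cast this
      · have : (Finset.univ.filter (fun G => Sw v x y G H)) = ∅ := by
          rw [Finset.filter_eq_empty_iff]
          intro G _ hS
          apply hm
          rw [Finset.mem_offDiag]
          exact ⟨Finset.mem_filter.2 ⟨Finset.mem_univ _, (Sw_nbr hS).1⟩,
            Finset.mem_filter.2 ⟨Finset.mem_univ _, (Sw_nbr hS).2⟩, hS.2.2.1⟩
        rw [this]; simp
    have h1 : ∑ x, ∑ y, ∑ G, J v x y G H ≤
        ∑ x, ∑ y, (if (x, y) ∈ N.offDiag then (1 : ℝ) else 0) :=
      Finset.sum_le_sum (fun x _ => Finset.sum_le_sum (fun y _ => hpt x y))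
    have h2 : ∑ x, ∑ y, (if (x, y) ∈ N.offDiag then (1 : ℝ) else 0) = (N.offDiag.card : ℝ) := by
      rw [← Fintype.sum_prod_type' (f := fun x y => if (x, y) ∈ N.offDiag then (1 : ℝ) else 0)]
      rw [Finset.sum_boole]
      congr 2
      ext ⟨a, b⟩
      simp
    have h4 : N.offDiag.card ≤ 6 := by
      rw [Finset.offDiag_card]
      interval_cases N.card <;> simp
    have h5 : (N.offDiag.card : ℝ) ≤ 6 := by exact_mod_cast h4
    rw [h2] at h1
    push_cast
    linarith
  · rw [h]
    have : ∀ x y G, J v x y G H = 0 := by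
      intro x y G
      unfold J
      rw [if_neg]
      intro hS
      have := (Sw_loops hS).1
      omega
    simp [this]

/-- few graphs with a loop at a given vertex -/
theorem switch_le (h3 : 3 ≤ n) (v : Fin n) (g : Cubic (Fin n) → ℝ) (g0 : ∀ G, 0 ≤ g G)
    (hg : ∀ G H : Cubic (Fin n), (∀ z, z ≠ v → H.m z z = G.m z z) → g H = g G) :
    ((n : ℝ) - 2) * ∑ G, g G * (G.m v v : ℝ) ≤ 6 * ∑ G, g G * (1 - (G.m v v : ℝ)) := by
  have h1 : ((n : ℝ) - 2) * ∑ G, g G * (G.m v v : ℝ) ≤
      ∑ G, g G * ∑ x, ∑ y, ∑ H, J v x y G H := by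
    rw [Finset.mul_sum]
    refine Finset.sum_le_sum (fun G _ => ?_)
    have := mul_le_mul_of_nonneg_left (switch_lower h3 v G) (g0 G)
    linarith
  have h2 : ∑ G, g G * ∑ x, ∑ y, ∑ H, J v x y G H =
      ∑ H, g H * ∑ x, ∑ y, ∑ G, J v x y G H := by
    have e1 : ∑ G, g G * ∑ x, ∑ y, ∑ H, J v x y G H =
        ∑ x, ∑ y, ∑ G, ∑ H, g G * J v x y G H := by
      simp only [Finset.mul_sum]
      rw [Finset.sum_comm]
      refine Finset.sum_congr rfl (fun x _ => ?_)
      rw [Finset.sum_comm]
    have e2 : ∑ H, g H * ∑ x, ∑ y, ∑ G, J v x y G H =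
        ∑ x, ∑ y, ∑ H, ∑ G, g H * J v x y G H := by
      simp only [Finset.mul_sum]
      rw [Finset.sum_comm]
      refine Finset.sum_congr rfl (fun x _ => ?_)
      rw [Finset.sum_comm]
    rw [e1, e2]
    refine Finset.sum_congr rfl (fun x _ => Finset.sum_congr rfl (fun y _ => ?_))
    rw [Finset.sum_comm]
    refine Finset.sum_congr rfl (fun H _ => Finset.sum_congr rfl (fun G _ => ?_))
    unfold J
    split_ifs with h
    · rw [hg G H (Sw_loops h).2]
    · simp
  have h4 : ∑ H, g H * ∑ x, ∑ y, ∑ G, J v x y G H ≤ 6 * ∑ G, g G * (1 - (G.m v v : ℝ)) := by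
    rw [Finset.mul_sum]
    refine Finset.sum_le_sum (fun H _ => ?_)
    have := mul_le_mul_of_nonneg_left (switch_upper v H) (g0 H)
    linarith
  linarith

end

/-- the error term -/
noncomputable def eps (n : ℕ) : ℝ := min 1 (12 / ((n : ℝ) - 2))

theorem eps_nonneg {n : ℕ} (h3 : 3 ≤ n) : 0 ≤ eps n := by
  unfold eps
  have : (3 : ℝ) ≤ n := by exact_mod_cast h3
  exact le_min zero_le_one (div_nonneg (by norm_num) (by linarith))

section
variable {n : ℕ} [Fintype (Cubic (Fin n))]

theorem exits_gen2 (h3 : 3 ≤ n) {v w : Fin n} (hvw : v ≠ w) (g : Cubic (Fin n) → ℝ)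
    (g0 : ∀ G, 0 ≤ g G)
    (hg : ∀ G H : Cubic (Fin n), (∀ z, z ≠ v → H.m z z = G.m z z) → g H = g G) :
    ∑ G : Cubic (Fin n), ∑ H : Cubic (Fin n), I v G H * g G ≤
      2 * (∑ G : Cubic (Fin n), g G * ((G.m v v : ℝ) * (1 - (G.m w w : ℝ))))
        + eps n * ∑ G : Cubic (Fin n), g G * ((1 - (G.m v v : ℝ)) * (G.m w w : ℝ)) := by
  have hn : (0 : ℝ) < (n : ℝ) - 2 := by
    have : (3 : ℝ) ≤ n := by exact_mod_cast h3
    linarith
  have h01 : ∀ G : Cubic (Fin n), 0 ≤ (G.m w w : ℝ) ∧ 0 ≤ 1 - (G.m w w : ℝ) := by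
    intro G
    have h1 := deg1 G w
    rcases Nat.le_one_iff_eq_zero_or_eq_one.1 h1 with h | h <;> rw [h] <;> norm_num
  have hA : ∑ G : Cubic (Fin n), ∑ H : Cubic (Fin n), I v G H * (g G * (1 - (G.m w w : ℝ))) ≤
      2 * ∑ G : Cubic (Fin n), g G * ((G.m v v : ℝ) * (1 - (G.m w w : ℝ))) := by
    rw [Finset.mul_sum]
    refine Finset.sum_le_sum (fun G _ => ?_)
    rw [← Finset.sum_mul]
    have := mul_le_mul_of_nonneg_right (sum_I v G) (mul_nonneg (g0 G) (h01 G).2)
    linarith
  have hB1 : ∑ G : Cubic (Fin n), ∑ H : Cubic (Fin n), I v G H * (g G * (G.m w w : ℝ)) ≤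
      ∑ G : Cubic (Fin n), g G * ((1 - (G.m v v : ℝ)) * (G.m w w : ℝ)) := by
    have h1 : ∀ G H : Cubic (Fin n), I v G H * (g G * (G.m w w : ℝ)) =
        I v G H * (g H * (H.m w w : ℝ)) := by
      intro G H
      unfold I
      split_ifs with h
      · obtain ⟨a, b, hP⟩ := h
        rw [hg G H (P_loops hP).2, (P_loops hP).2 w hvw.symm]
      · simp
    rw [Finset.sum_congr rfl (fun G _ => Finset.sum_congr rfl (fun H _ => h1 G H)),
      Finset.sum_comm]
    refine Finset.sum_le_sum (fun H _ => ?_)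
    rw [← Finset.sum_mul]
    have := mul_le_mul_of_nonneg_right (sum_I_left v H) (mul_nonneg (g0 H) (h01 H).1)
    linarith
  have hB2 : ∑ G : Cubic (Fin n), ∑ H : Cubic (Fin n), I v G H * (g G * (G.m w w : ℝ)) ≤
      (12 / ((n : ℝ) - 2)) *
        ∑ G : Cubic (Fin n), g G * ((1 - (G.m v v : ℝ)) * (G.m w w : ℝ)) := by
    have h1 : ∑ G : Cubic (Fin n), ∑ H : Cubic (Fin n), I v G H * (g G * (G.m w w : ℝ)) ≤
        2 * ∑ G : Cubic (Fin n), (g G * (G.m w w : ℝ)) * (G.m v v : ℝ) := by
      rw [Finset.mul_sum]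
      refine Finset.sum_le_sum (fun G _ => ?_)
      rw [← Finset.sum_mul]
      have := mul_le_mul_of_nonneg_right (sum_I v G) (mul_nonneg (g0 G) (h01 G).1)
      linarith
    have h2 := switch_le h3 v (fun G => g G * (G.m w w : ℝ))
      (fun G => mul_nonneg (g0 G) (h01 G).1)
      (fun G H hz => by
        show g H * (H.m w w : ℝ) = g G * (G.m w w : ℝ)
        rw [hg G H hz, hz w hvw.symm])
    have h4 : ∑ G : Cubic (Fin n), g G * (G.m w w : ℝ) * (1 - (G.m v v : ℝ)) =
        ∑ G : Cubic (Fin n), g G * ((1 - (G.m v v : ℝ)) * (G.m w w : ℝ)) :=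
      Finset.sum_congr rfl (fun G _ => by ring)
    rw [h4] at h2
    refine h1.trans ?_
    rw [div_mul_eq_mul_div, le_div_iff₀ hn]
    linarith
  have hX : 0 ≤ ∑ G : Cubic (Fin n), g G * ((1 - (G.m v v : ℝ)) * (G.m w w : ℝ)) := by
    refine Finset.sum_nonneg (fun G _ => mul_nonneg (g0 G) (mul_nonneg ?_ (h01 G).1))
    have h1 := deg1 G v
    rcases Nat.le_one_iff_eq_zero_or_eq_one.1 h1 with h | h <;> rw [h] <;> norm_num
  have hB : ∑ G : Cubic (Fin n), ∑ H : Cubic (Fin n), I v G H * (g G * (G.m w w : ℝ)) ≤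
      eps n * ∑ G : Cubic (Fin n), g G * ((1 - (G.m v v : ℝ)) * (G.m w w : ℝ)) := by
    unfold eps
    rcases le_total 1 (12 / ((n : ℝ) - 2)) with h | h
    · rw [min_eq_left h, one_mul]; exact hB1
    · rw [min_eq_right h]; exact hB2
  have hC : ∑ G : Cubic (Fin n), ∑ H : Cubic (Fin n), I v G H * g G =
      (∑ G : Cubic (Fin n), ∑ H : Cubic (Fin n), I v G H * (g G * (1 - (G.m w w : ℝ))))
      + ∑ G : Cubic (Fin n), ∑ H : Cubic (Fin n), I v G H * (g G * (G.m w w : ℝ)) := by
    rw [← Finset.sum_add_distrib]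
    refine Finset.sum_congr rfl (fun G _ => ?_)
    rw [← Finset.sum_add_distrib]
    exact Finset.sum_congr rfl (fun H _ => by ring)
  rw [hC]
  exact add_le_add hA hB

theorem exits_one2 (h3 : 3 ≤ n) {v w : Fin n} (hvw : v ≠ w) :
    ∑ G : Cubic (Fin n), ∑ H : Cubic (Fin n), I v G H ≤ (2 + eps n) * (p v v - p v w) := by
  have h := exits_gen2 h3 hvw (fun _ => (1 : ℝ)) (fun _ => zero_le_one) (fun _ _ _ => rfl)
  simp only [mul_one, one_mul] at h
  refine h.trans (le_of_eq ?_)
  have h1 : p v v = ∑ G : Cubic (Fin n), (G.m v v : ℝ) := by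
    unfold p
    refine Finset.sum_congr rfl (fun G _ => ?_)
    have h1 := deg1 G v
    rcases Nat.le_one_iff_eq_zero_or_eq_one.1 h1 with h | h <;> simp [h]
  have h2 : p v v = ∑ G : Cubic (Fin n), (G.m w w : ℝ) := by
    rw [p_diag v w]
    unfold p
    refine Finset.sum_congr rfl (fun G _ => ?_)
    have h1 := deg1 G w
    rcases Nat.le_one_iff_eq_zero_or_eq_one.1 h1 with h | h <;> simp [h]
  have h4 : ∑ G : Cubic (Fin n), (G.m v v : ℝ) * (1 - (G.m w w : ℝ)) = p v v - p v w := by
    rw [h1]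
    unfold p
    rw [← Finset.sum_sub_distrib]
    exact Finset.sum_congr rfl (fun G _ => by ring)
  have h5 : ∑ G : Cubic (Fin n), (1 - (G.m v v : ℝ)) * (G.m w w : ℝ) = p v v - p v w := by
    rw [h2]
    unfold p
    rw [← Finset.sum_sub_distrib]
    exact Finset.sum_congr rfl (fun G _ => by ring)
  rw [h4, h5]
  ring

end

end Pool.Agent.WHC
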