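import Pool.Agent.WHC.PhiL

set_option autoImplicit false
set_option linter.all false

namespace Pool.Agent.WHC

open Relation

section
variable {V : Type*} [Fintype V] [DecidableEq V]

theorem no_triple (h3 : 3 ≤ Fintype.card V) (G : Cubic V) {u v : V} (huv : u ≠ v) :
    G.m u v ≤ 2 := by
  by_contra hc
  push Not at hc
  have h' : 3 ≤ G.m v u := by rw [G.symm]; omega
  have key : ∀ x, ReflTransGen (fun x y => 0 < G.m x y) u x → x = u ∨ x = v := by
    intro x hx
    induction hx with
    | refl => exact Or.inl rfl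
    | @tail y z _ hyz ih =>
      by_contra hcc
      push Not at hcc
      rcases ih with rfl | rfl
      · have := deg2 G y (Ne.symm hcc.2)
        omega
      · have := deg2 G y (Ne.symm hcc.1)
        omega
  have hsub : (Finset.univ : Finset V) ⊆ {u, v} := by
    intro x _
    have := key x (G.conn u x)
    simpa using this
  have h1 := Finset.card_le_card hsub
  have h2 := Finset.card_le_two (a := u) (b := v)
  rw [Finset.card_univ] at h1
  omega

/-- `o` lies in a double edge -/
def DE (o : V) (G : Cubic V) : Prop := ∃ w, w ≠ o ∧ 2 ≤ G.m o w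

/-- the third neighbour -/
theorem third (G : Cubic V) {o w : V} (hw : w ≠ o) (h : G.m o w = 2) :
    ∃ b, b ≠ o ∧ b ≠ w ∧ G.m o b = 1 ∧ ∀ z, z ≠ o → z ≠ w → z ≠ b → G.m o z = 0 := by
  have h0 : G.m o o = 0 := by
    have := deg2 G o hw
    omega
  have hb : ∃ b, b ≠ o ∧ b ≠ w ∧ 1 ≤ G.m o b := by
    by_contra hc
    push Not at hc
    have h1 := G.deg o
    have h2 : ∑ j, G.m o j = G.m o w := by
      refine Finset.sum_eq_single w (fun j _ hj => ?_) (fun h => absurd (Finset.mem_univ w) h)
      by_cases hjo : j = o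
      · rw [hjo]; exact h0
      · have := hc j hjo hj; omega
    omega
  obtain ⟨b, hbo, hbw, hb1⟩ := hb
  have h2 := deg2 G o hbw
  refine ⟨b, hbo, hbw, by omega, fun z hzo hzw hzb => ?_⟩
  have := deg3 G o hbw.symm (Ne.symm hzw) (Ne.symm hzb)
  omega

/-- the three types of moves that destroy the double edge `o w` -/
def Tag (o w b c : V) (G H : Cubic V) (t : Fin 3 × V) : Prop :=
  (t.1 = 0 ∧ t.2 = c ∧ ∀ i j, H.m i j + E o w i j + E w c i j = G.m i j + E w w i j + E o c i j) ∨
  (t.1 = 1 ∧ t.2 ≠ o ∧ 0 < G.m b t.2 ∧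
    ∀ i j, H.m i j + E o w i j + E b t.2 i j = G.m i j + E b w i j + E o t.2 i j) ∨
  (t.1 = 2 ∧ t.2 ≠ w ∧ 0 < G.m c t.2 ∧
    ∀ i j, H.m i j + E o w i j + E c t.2 i j = G.m i j + E c o i j + E w t.2 i j)

theorem tag_aux {G H : Cubic V} {o w b c : V} (hw : w ≠ o) (how : G.m o w = 2)
    (hbo : b ≠ o) (hbw : b ≠ w) (hob : G.m o b = 1)
    (ho : ∀ z, z ≠ o → z ≠ w → z ≠ b → G.m o z = 0)
    (hco : c ≠ o) (hcw : c ≠ w) (hwc : G.m w c = 1)
    (hwz : ∀ z, z ≠ o → z ≠ w → z ≠ c → G.m w z = 0)
    (hHo : H.m o o = 0) {R : V → V → ℕ} {u v a b' : V} (huv : u ≠ v)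
    (hG : ∀ i j, G.m i j = R i j + E u v i j + E u a i j + E v b' i j)
    (hH : ∀ i j, H.m i j = R i j + E u v i j + E v a i j + E u b' i j)
    (h1 : (u = o ∧ a = w) ∨ (u = w ∧ a = o)) : ∃ t, Tag o w b c G H t := by
  have hwo : G.m w o = 2 := by rw [G.symm]; exact how
  have hbo1 : G.m b o = 1 := by rw [G.symm]; exact hob
  have hww : G.m w w = 0 := by
    have := deg2 G w hw
    omega
  rcases h1 with ⟨rfl, rfl⟩ | ⟨rfl, rfl⟩
  · -- u = o, a = w
    have g1 := hG u v
    have e1 := E_self u v
    have hv : v = a ∨ v = b := by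
      by_contra hc
      push Not at hc
      have := ho v huv.symm hc.1 hc.2
      omega
    rcases hv with rfl | rfl
    · have e2 := E_self u v
      have hb'o : b' ≠ u := by
        rintro rfl
        have e3 := E_comm v b' b' v
        rw [E_self] at e3
        omega
      have g2 := hG v b'
      have e4 := E_self v b'
      have hb'w : b' ≠ v := by
        rintro rfl
        omega
      have hb'c : b' = c := by
        by_contra hc
        have := hwz b' hb'o hb'w hc
        omega
      subst hb'c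
      refine ⟨(0, b'), Or.inl ⟨rfl, rfl, fun i j => ?_⟩⟩
      have := hG i j
      have := hH i j
      omega
    · have hb'o : b' ≠ u := by
        rintro rfl
        have e3 := E_comm v b' b' v
        rw [E_self] at e3
        omega
      have g2 := hG v b'
      have e4 := E_self v b'
      refine ⟨(1, b'), Or.inr (Or.inl ⟨rfl, hb'o, by show 0 < G.m v b'; omega, fun i j => ?_⟩)⟩
      have := hG i j
      have := hH i j
      show H.m i j + E u a i j + E v b' i j = G.m i j + E v a i j + E u b' i j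
      omega
  · -- u = w, a = o
    have g1 := hG u v
    have e1 := E_self u v
    have hv : v = a ∨ v = c := by
      by_contra hc
      push Not at hc
      have := hwz v hc.1 huv.symm hc.2
      omega
    rcases hv with rfl | rfl
    · exfalso
      have := hH v v
      have e5 := E_self v v
      omega
    · have hb'w : b' ≠ u := by
        rintro rfl
        have e3 := E_comm v b' b' v
        rw [E_self] at e3
        omega
      have g2 := hG v b'
      have e4 := E_self v b'
      refine ⟨(2, b'), Or.inr (Or.inr ⟨rfl, hb'w, by show 0 < G.m v b'; omega, fun i j => ?_⟩)⟩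
      have := hG i j
      have := hH i j
      have := E_comm u a i j
      show H.m i j + E a u i j + E v b' i j = G.m i j + E v a i j + E u b' i j
      omega

theorem Q_card (h3 : 3 ≤ Fintype.card V) (G : Cubic V) (o : V) (hG : DE o G)
    (S : Finset (Cubic V)) (hS : ∀ H ∈ S, Move G H ∧ ¬ DE o H ∧ H.m o o = 0) : S.card ≤ 5 := by
  classical
  obtain ⟨w, hw, h2⟩ := hG
  have how : G.m o w = 2 := le_antisymm (no_triple h3 G hw.symm) h2
  have hwo : G.m w o = 2 := by rw [G.symm]; exact how
  obtain ⟨b, hbo, hbw, hob, ho⟩ := third G hw how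
  obtain ⟨c, hcw, hco, hwc, hwz⟩ := third G hw.symm hwo
  let Nb : Finset V := Finset.univ.filter (fun y => y ≠ o ∧ 0 < G.m b y)
  let Nc : Finset V := Finset.univ.filter (fun y => y ≠ w ∧ 0 < G.m c y)
  have hcard : ∀ (x y : V), G.m x y = 1 →
      (Finset.univ.filter (fun z => z ≠ y ∧ 0 < G.m x z)).card ≤ 2 := by
    intro x y hxy
    have hd := G.deg x
    have h1 : ∑ j ∈ insert y (Finset.univ.filter (fun z => z ≠ y ∧ 0 < G.m x z)), G.m x j ≤
        ∑ j, G.m x j := Finset.sum_le_sum_of_subset (Finset.subset_univ _)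
    rw [Finset.sum_insert (by simp)] at h1
    have h2 : (Finset.univ.filter (fun z => z ≠ y ∧ 0 < G.m x z)).card * 1 ≤
        ∑ j ∈ Finset.univ.filter (fun z => z ≠ y ∧ 0 < G.m x z), G.m x j := by
      rw [← smul_eq_mul]
      apply Finset.card_nsmul_le_sum
      intro z hz
      exact (Finset.mem_filter.1 hz).2.2
    omega
  have hNb : Nb.card ≤ 2 := hcard b o (by rw [G.symm]; exact hob)
  have hNc : Nc.card ≤ 2 := hcard c w (by rw [G.symm]; exact hwc)
  let B : Finset (Fin 3 × V) := {(0, c)} ∪ (({1} : Finset (Fin 3)) ×ˢ Nb ∪ ({2} : Finset (Fin 3)) ×ˢ Nc)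
  have hB : B.card ≤ 5 := by
    have e1 := Finset.card_union_le ({(0, c)} : Finset (Fin 3 × V))
      (({1} : Finset (Fin 3)) ×ˢ Nb ∪ ({2} : Finset (Fin 3)) ×ˢ Nc)
    have e2 := Finset.card_union_le (({1} : Finset (Fin 3)) ×ˢ Nb) (({2} : Finset (Fin 3)) ×ˢ Nc)
    rw [Finset.card_product, Finset.card_product] at e2
    simp only [Finset.card_singleton, one_mul] at e1 e2
    have e3 : B.card ≤ 1 + (({1} : Finset (Fin 3)) ×ˢ Nb ∪ ({2} : Finset (Fin 3)) ×ˢ Nc).card := e1
    omega
  refine (Finset.card_le_card_of_forall_subsingleton (fun H t => Tag o w b c G H t) ?_ ?_).trans hB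
  · intro H hH
    obtain ⟨hm, hde, hHo⟩ := hS H hH
    have hHow : H.m o w ≤ 1 := by
      by_contra hcon
      exact hde ⟨w, hw, by omega⟩
    have hex : ∃ t, Tag o w b c G H t := by
      obtain ⟨R, u, v, a, b', huv, hGm, hHm⟩ := hm
      have q1 := hGm o w
      have q2 := hHm o w
      by_cases hE : 0 < E u a o w
      · have h1 : (u = o ∧ a = w) ∨ (u = w ∧ a = o) := by
          unfold E at hE
          split_ifs at hE with hc
          · rcases hc with ⟨rfl, rfl⟩ | ⟨rfl, rfl⟩
            · exact Or.inl ⟨rfl, rfl⟩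
            · exact Or.inr ⟨rfl, rfl⟩
          · omega
        exact tag_aux hw how hbo hbw hob ho hco hcw hwc (fun z hz1 hz2 hz3 => hwz z hz2 hz1 hz3)
          hHo huv hGm hHm h1
      · have hE2 : 0 < E v b' o w := by omega
        have h1 : (v = o ∧ b' = w) ∨ (v = w ∧ b' = o) := by
          unfold E at hE2
          split_ifs at hE2 with hc
          · rcases hc with ⟨rfl, rfl⟩ | ⟨rfl, rfl⟩
            · exact Or.inl ⟨rfl, rfl⟩
            · exact Or.inr ⟨rfl, rfl⟩
          · omega
        exact tag_aux (R := R) (u := v) (v := u) (a := b') (b' := a) hw how hbo hbw hob ho hco hcw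
          hwc (fun z hz1 hz2 hz3 => hwz z hz2 hz1 hz3) hHo huv.symm
          (fun i j => by rw [hGm, E_comm u v i j]; ring)
          (fun i j => by rw [hHm, E_comm u v i j]; ring) h1
    obtain ⟨t, ht⟩ := hex
    refine ⟨t, ?_, ht⟩
    obtain ⟨t1, t2⟩ := t
    rcases ht with ⟨rfl, rfl, _⟩ | ⟨rfl, h1, h2, _⟩ | ⟨rfl, h1, h2, _⟩
    · simp [B]
    · simp only [B, Finset.mem_union, Finset.mem_product]
      right; left
      exact ⟨by simp, Finset.mem_filter.2 ⟨Finset.mem_univ _, h1, h2⟩⟩
    · simp only [B, Finset.mem_union, Finset.mem_product]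
      right; right
      exact ⟨by simp, Finset.mem_filter.2 ⟨Finset.mem_univ _, h1, h2⟩⟩
  · intro t _ H hH H' hH'
    obtain ⟨_, ht⟩ := hH
    obtain ⟨_, ht'⟩ := hH'
    obtain ⟨t1, t2⟩ := t
    apply cubic_ext
    intro i j
    rcases ht with ⟨q1, _, f1⟩ | ⟨q1, _, _, f1⟩ | ⟨q1, _, _, f1⟩ <;>
      rcases ht' with ⟨q2, _, f2⟩ | ⟨q2, _, _, f2⟩ | ⟨q2, _, _, f2⟩ <;>
      first
      | (exfalso; rw [q1] at q2; revert q2; decide)
      | (have := f1 i j; have := f2 i j; omega)

theorem P_DE {o w b : V} {G H : Cubic V} (h : P o w b G H) : DE o H ∧ ¬ DE o G := by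
  obtain ⟨hw, hb, hbw, h1, h2, h3, hf⟩ := h
  constructor
  · refine ⟨w, hw, ?_⟩
    have := hf o w
    simp [E, hw, hb, hbw, hw.symm, hb.symm, hbw.symm] at this
    omega
  · rintro ⟨z, hz, hz2⟩
    have := deg2 G o hz
    omega

/-- a graph with a double edge at `o` comes from a graph with a loop at `o` -/
theorem DE_P (h3 : 3 ≤ Fintype.card V) (H : Cubic V) (o : V) (h : DE o H) :
    ∃ w b G, P o w b G H := by
  obtain ⟨w, hw, h2⟩ := h
  have how : H.m o w = 2 := le_antisymm (no_triple h3 H hw.symm) h2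
  have hwo : H.m w o = 2 := by rw [H.symm]; exact how
  obtain ⟨b, hbo, hbw, hob, ho⟩ := third H hw how
  have hoo : H.m o o = 0 := by have := deg2 H o hw; omega
  have E1 : ∀ x y i j : V, E x y i j ≤ 1 := by
    intro x y i j
    unfold E
    split_ifs <;> omega
  have hbo1 : H.m b o = 1 := by rw [H.symm]; exact hob
  have hle : ∀ i j, E w o i j + E w o i j + E o b i j ≤ H.m i j := by
    intro i j
    by_cases ha : (i = w ∧ j = o) ∨ (i = o ∧ j = w)
    · have e2 : E o b i j = 0 := by
        unfold E; rw [if_neg]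
        rcases ha with ⟨rfl, rfl⟩ | ⟨rfl, rfl⟩
        · rintro (⟨h, _⟩ | ⟨h, _⟩)
          · exact hw h
          · exact hbw h.symm
        · rintro (⟨_, h⟩ | ⟨h, _⟩)
          · exact hbw h.symm
          · exact hbo h.symm
      have := E1 w o i j
      rcases ha with ⟨rfl, rfl⟩ | ⟨rfl, rfl⟩ <;> omega
    · have e1 : E w o i j = 0 := by unfold E; rw [if_neg ha]
      by_cases hc : (i = o ∧ j = b) ∨ (i = b ∧ j = o)
      · have := E1 o b i j
        rcases hc with ⟨rfl, rfl⟩ | ⟨rfl, rfl⟩ <;> omega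
      · have e2 : E o b i j = 0 := by unfold E; rw [if_neg hc]
        omega
  have hH : ∀ i j, H.m i j = (H.m i j - (E w o i j + E w o i j + E o b i j)) + E w o i j
      + E w o i j + E o b i j := fun i j => by have := hle i j; omega
  let G : Cubic V := mv H (fun i j => H.m i j - (E w o i j + E w o i j + E o b i j)) w o o b hH
  have hG : ∀ i j, G.m i j = (H.m i j - (E w o i j + E w o i j + E o b i j)) + E w o i j
      + E o o i j + E w b i j := fun i j => rfl
  refine ⟨w, b, G, ?_⟩
  refine P_of_loop (R := fun i j => H.m i j - (E w o i j + E w o i j + E o b i j)) h3 hw.symm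
    (fun i j => ?_) (fun i j => ?_)
  · rw [hG, E_comm w o i j]
  · rw [E_comm o w i j]
    exact hH i j

end

end Pool.Agent.WHC
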