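import Pool.Agent.WHC.Two

set_option autoImplicit false
set_option linter.all false

namespace Pool.Agent.WHC

open Matrix

section
variable {n : ℕ} [Fintype (Cubic (Fin n))]

open Classical in
/-- indicator of a double edge at `o` -/
noncomputable def de (o : Fin n) (G : Cubic (Fin n)) : ℝ := if DE o G then 1 else 0

open Classical in
/-- indicator of a move that destroys the double edge at `o` without creating a loop at `o` -/
noncomputable def Qi (o : Fin n) (G H : Cubic (Fin n)) : ℝ :=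
  if Move G H ∧ DE o G ∧ ¬ DE o H ∧ H.m o o = 0 then 1 else 0

/-- the test function -/
noncomputable def f2 (o : Fin n) (G : Cubic (Fin n)) : ℝ := 9 / 2 * (G.m o o : ℝ) + de o G

theorem Qi_nonneg (o : Fin n) (G H : Cubic (Fin n)) : 0 ≤ Qi o G H := by
  unfold Qi; split_ifs <;> norm_num

theorem noDE (o : Fin n) (G : Cubic (Fin n)) (h : G.m o o = 1) : ¬ DE o G := by
  rintro ⟨z, hz, hz2⟩
  have := deg2 G o hz
  omega

theorem sum_I_de (h3 : 3 ≤ n) (o : Fin n) (H : Cubic (Fin n)) : ∑ G, I o G H = de o H := by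
  classical
  have h3' : 3 ≤ Fintype.card (Fin n) := by simpa using h3
  unfold I de
  rw [Finset.sum_boole]
  split_ifs with h
  · obtain ⟨w, b, G0, hP⟩ := DE_P h3' H o h
    have : (Finset.univ.filter (fun G => ∃ w b, P o w b G H)) = {G0} := by
      ext G
      simp only [Finset.mem_filter, Finset.mem_univ, true_and, Finset.mem_singleton]
      constructor
      · rintro ⟨w', b', hP'⟩
        exact P_left hP' hP
      · rintro rfl
        exact ⟨w, b, hP⟩
    rw [this]; simp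
  · have : (Finset.univ.filter (fun G => ∃ w b, P o w b G H)) = ∅ := by
      rw [Finset.filter_eq_empty_iff]
      rintro G _ ⟨w, b, hP⟩
      exact h (P_DE hP).1
    rw [this]; simp

theorem sum_Q (h3 : 3 ≤ n) (o : Fin n) (G : Cubic (Fin n)) : ∑ H, Qi o G H ≤ 5 * de o G := by
  classical
  have h3' : 3 ≤ Fintype.card (Fin n) := by simpa using h3
  unfold Qi de
  rw [Finset.sum_boole]
  split_ifs with h
  · have := Q_card h3' G o h
      (Finset.univ.filter (fun H => Move G H ∧ DE o G ∧ ¬ DE o H ∧ H.m o o = 0))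
      (fun H hH => by
        obtain ⟨a, b, c, d⟩ := (Finset.mem_filter.1 hH).2
        exact ⟨a, c, d⟩)
    have h5 : ((Finset.univ.filter (fun H => Move G H ∧ DE o G ∧ ¬ DE o H ∧ H.m o o = 0)).card : ℝ)
      ≤ 5 := by exact_mod_cast this
    linarith
  · have : (Finset.univ.filter (fun H => Move G H ∧ DE o G ∧ ¬ DE o H ∧ H.m o o = 0)) = ∅ := by
      rw [Finset.filter_eq_empty_iff]
      rintro H _ ⟨_, hd, _⟩
      exact h hd
    rw [this]; simp

theorem edge2 (h3 : 3 ≤ n) (o : Fin n) {G H : Cubic (Fin n)} (h : Move G H) :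
    (f2 o G - f2 o H) ^ 2 ≤ 49 / 4 * (I o G H + I o H G) + (Qi o G H + Qi o H G) := by
  have i1 := I_nonneg o G H
  have i2 := I_nonneg o H G
  have q1 := Qi_nonneg o G H
  have q2 := Qi_nonneg o H G
  by_cases hG : G.m o o = 1
  · by_cases hH : H.m o o = 1
    · have : f2 o G = f2 o H := by
        unfold f2 de
        rw [hG, hH, if_neg (noDE o G hG), if_neg (noDE o H hH)]
      rw [this, sub_self]
      nlinarith
    · obtain ⟨w, b, hP⟩ := exit_at h3 o h hG hH
      have e1 : I o G H = 1 := by unfold I; rw [if_pos ⟨w, b, hP⟩]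
      have e2 : f2 o G = 9 / 2 := by
        unfold f2 de; rw [hG, if_neg (P_DE hP).2]; norm_num
      have e3 : f2 o H = 1 := by
        unfold f2 de; rw [(P_loops hP).1, if_pos (P_DE hP).1]; norm_num
      rw [e1, e2, e3]
      nlinarith
  · by_cases hH : H.m o o = 1
    · obtain ⟨w, b, hP⟩ := exit_at h3 o h.symm hH hG
      have e1 : I o H G = 1 := by unfold I; rw [if_pos ⟨w, b, hP⟩]
      have e2 : f2 o H = 9 / 2 := by
        unfold f2 de; rw [hH, if_neg (P_DE hP).2]; norm_num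
      have e3 : f2 o G = 1 := by
        unfold f2 de; rw [(P_loops hP).1, if_pos (P_DE hP).1]; norm_num
      rw [e1, e2, e3]
      nlinarith
    · have g0 : G.m o o = 0 := by have := deg1 G o; omega
      have h0 : H.m o o = 0 := by have := deg1 H o; omega
      by_cases dG : DE o G
      · by_cases dH : DE o H
        · have : f2 o G = f2 o H := by
            unfold f2 de
            rw [g0, h0, if_pos dG, if_pos dH]
          rw [this, sub_self]
          nlinarith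
        · have e1 : Qi o G H = 1 := by unfold Qi; rw [if_pos ⟨h, dG, dH, h0⟩]
          have e2 : f2 o G = 1 := by unfold f2 de; rw [g0, if_pos dG]; norm_num
          have e3 : f2 o H = 0 := by unfold f2 de; rw [h0, if_neg dH]; norm_num
          rw [e1, e2, e3]
          nlinarith
      · by_cases dH : DE o H
        · have e1 : Qi o H G = 1 := by unfold Qi; rw [if_pos ⟨h.symm, dH, dG, g0⟩]
          have e2 : f2 o H = 1 := by unfold f2 de; rw [h0, if_pos dH]; norm_num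
          have e3 : f2 o G = 0 := by unfold f2 de; rw [g0, if_neg dG]; norm_num
          rw [e1, e2, e3]
          nlinarith
        · have : f2 o G = f2 o H := by
            unfold f2 de
            rw [g0, h0, if_neg dG, if_neg dH]
          rw [this, sub_self]
          nlinarith

theorem sum_II (h3 : 3 ≤ n) (o : Fin n) :
    ∑ G : Cubic (Fin n), ∑ H : Cubic (Fin n), I o G H = ∑ H : Cubic (Fin n), de o H := by
  rw [Finset.sum_comm]
  exact Finset.sum_congr rfl (fun H _ => sum_I_de h3 o H)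

theorem energy3 (h3 : 3 ≤ n) (o : Fin n) :
    ∑ x : Cubic (Fin n) × Cubic (Fin n), ad x * (f2 o x.1 - f2 o x.2) ^ 2 ≤
      69 / 2 * ∑ G : Cubic (Fin n), de o G := by
  have h1 : ∑ x : Cubic (Fin n) × Cubic (Fin n), ad x * (f2 o x.1 - f2 o x.2) ^ 2 ≤
      ∑ x : Cubic (Fin n) × Cubic (Fin n),
        (49 / 4 * (I o x.1 x.2 + I o x.2 x.1) + (Qi o x.1 x.2 + Qi o x.2 x.1)) := by
    refine Finset.sum_le_sum (fun x _ => ?_)
    have i1 := I_nonneg o x.1 x.2
    have i2 := I_nonneg o x.2 x.1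
    have q1 := Qi_nonneg o x.1 x.2
    have q2 := Qi_nonneg o x.2 x.1
    unfold ad
    split_ifs with h
    · rw [one_mul]
      exact edge2 h3 o h.2
    · rw [zero_mul]
      nlinarith
  have h2 : ∑ x : Cubic (Fin n) × Cubic (Fin n),
        (49 / 4 * (I o x.1 x.2 + I o x.2 x.1) + (Qi o x.1 x.2 + Qi o x.2 x.1)) =
      49 / 2 * (∑ G : Cubic (Fin n), ∑ H : Cubic (Fin n), I o G H)
        + 2 * ∑ G : Cubic (Fin n), ∑ H : Cubic (Fin n), Qi o G H := by
    rw [Fintype.sum_prod_type]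
    simp only [Finset.sum_add_distrib, ← Finset.mul_sum]
    rw [Finset.sum_comm (f := fun G H => I o H G), Finset.sum_comm (f := fun G H => Qi o H G)]
    ring
  have h4 : ∑ G : Cubic (Fin n), ∑ H : Cubic (Fin n), Qi o G H ≤
      5 * ∑ G : Cubic (Fin n), de o G := by
    rw [Finset.mul_sum]
    exact Finset.sum_le_sum (fun G _ => sum_Q h3 o G)
  rw [h2, sum_II h3 o] at h1
  linarith

theorem de_le (h3 : 3 ≤ n) (o : Fin n) :
    ∑ G : Cubic (Fin n), de o G ≤ 2 * ∑ G : Cubic (Fin n), (G.m o o : ℝ) := by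
  rw [← sum_II h3 o, Finset.mul_sum]
  exact Finset.sum_le_sum (fun G _ => sum_I o G)

theorem cases_f2 (o : Fin n) (G : Cubic (Fin n)) :
    ((G.m o o : ℝ) = 1 ∧ de o G = 0) ∨ ((G.m o o : ℝ) = 0 ∧ de o G = 1) ∨
      ((G.m o o : ℝ) = 0 ∧ de o G = 0) := by
  rcases Nat.le_one_iff_eq_zero_or_eq_one.1 (deg1 G o) with h | h
  · right
    by_cases hd : DE o G
    · left; exact ⟨by rw [h]; norm_num, by unfold de; rw [if_pos hd]⟩
    · right; exact ⟨by rw [h]; norm_num, by unfold de; rw [if_neg hd]⟩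
  · left
    exact ⟨by rw [h]; norm_num, by unfold de; rw [if_neg (noDE o G h)]⟩

theorem norm_f2 (o : Fin n) : ∑ G : Cubic (Fin n), (f2 o G) ^ 2 =
    81 / 4 * (∑ G : Cubic (Fin n), (G.m o o : ℝ)) + ∑ G : Cubic (Fin n), de o G := by
  rw [Finset.mul_sum, ← Finset.sum_add_distrib]
  refine Finset.sum_congr rfl (fun G _ => ?_)
  unfold f2
  rcases cases_f2 o G with ⟨h1, h2⟩ | ⟨h1, h2⟩ | ⟨h1, h2⟩ <;> rw [h1, h2] <;> norm_num

theorem cs_f2 (h3 : 3 ≤ n) (o : Fin n) : ((n : ℝ) + 4) * (∑ G : Cubic (Fin n), f2 o G) ^ 2 ≤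
    18 * (Fintype.card (Cubic (Fin n)) : ℝ) * ∑ G : Cubic (Fin n), (f2 o G) ^ 2 := by
  have h1 : (∑ G : Cubic (Fin n), f2 o G) ^ 2 ≤ (∑ G : Cubic (Fin n), (f2 o G) ^ 2) *
      ∑ G : Cubic (Fin n), ((G.m o o : ℝ) + de o G) ^ 2 := by
    have := Finset.sum_mul_sq_le_sq_mul_sq (Finset.univ : Finset (Cubic (Fin n)))
      (fun G => f2 o G) (fun G => (G.m o o : ℝ) + de o G)
    refine le_trans (le_of_eq ?_) this
    congr 1
    refine Finset.sum_congr rfl (fun G _ => ?_)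
    unfold f2
    rcases cases_f2 o G with ⟨h1, h2⟩ | ⟨h1, h2⟩ | ⟨h1, h2⟩ <;> rw [h1, h2] <;> norm_num
  have h2 : ∑ G : Cubic (Fin n), ((G.m o o : ℝ) + de o G) ^ 2 =
      (∑ G : Cubic (Fin n), (G.m o o : ℝ)) + ∑ G : Cubic (Fin n), de o G := by
    rw [← Finset.sum_add_distrib]
    refine Finset.sum_congr rfl (fun G _ => ?_)
    rcases cases_f2 o G with ⟨h1, h2⟩ | ⟨h1, h2⟩ | ⟨h1, h2⟩ <;> rw [h1, h2] <;> norm_num
  have h4 := switch_le h3 o (fun _ => (1 : ℝ)) (fun _ => zero_le_one) (fun _ _ _ => rfl)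
  simp only [one_mul, Finset.sum_sub_distrib, Finset.sum_const, Finset.card_univ, nsmul_eq_mul,
    mul_one] at h4
  have h5 := de_le h3 o
  have h6 : 0 ≤ ∑ G : Cubic (Fin n), (f2 o G) ^ 2 := Finset.sum_nonneg (fun G _ => sq_nonneg _)
  have hn : (0 : ℝ) ≤ (n : ℝ) + 4 := by positivity
  rw [h2] at h1
  set L := ∑ G : Cubic (Fin n), (G.m o o : ℝ)
  set D := ∑ G : Cubic (Fin n), de o G
  set F := ∑ G : Cubic (Fin n), (f2 o G) ^ 2
  set N := (Fintype.card (Cubic (Fin n)) : ℝ)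
  have h7 : ((n : ℝ) + 4) * (L + D) ≤ 18 * N := by
    have : ((n : ℝ) + 4) * (L + D) ≤ ((n : ℝ) + 4) * (3 * L) :=
      mul_le_mul_of_nonneg_left (by linarith) hn
    linarith
  calc ((n : ℝ) + 4) * (∑ G : Cubic (Fin n), f2 o G) ^ 2 ≤ ((n : ℝ) + 4) * (F * (L + D)) :=
        mul_le_mul_of_nonneg_left h1 hn
    _ = F * (((n : ℝ) + 4) * (L + D)) := by ring
    _ ≤ F * (18 * N) := mul_le_mul_of_nonneg_left h7 h6
    _ = 18 * N * F := by ring

/-- the two-dimensional test space -/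
noncomputable def T3 (o : Fin n) : (Fin 2 → ℝ) →ₗ[ℝ] (Cubic (Fin n) → ℝ) where
  toFun c G := c 0 + c 1 * f2 o G
  map_add' c d := by
    ext G
    simp
    ring
  map_smul' r c := by
    ext G
    simp
    ring

theorem T3_apply (o : Fin n) (c : Fin 2 → ℝ) (G : Cubic (Fin n)) :
    T3 o c G = c 0 + c 1 * f2 o G := rfl

theorem norm_T3 (h16 : 16 ≤ n) (o : Fin n) (c : Fin 2 → ℝ) (hN : 0 < Fintype.card (Cubic (Fin n))) :
    (c 1) ^ 2 * (∑ G : Cubic (Fin n), (f2 o G) ^ 2) * (((n : ℝ) - 14) / ((n : ℝ) + 4)) ≤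
      T3 o c ⬝ᵥ T3 o c := by
  have hcs := cs_f2 (n := n) (by omega) o
  have hn : (0 : ℝ) < (n : ℝ) + 4 := by positivity
  have hX : T3 o c ⬝ᵥ T3 o c = (c 0) ^ 2 * (Fintype.card (Cubic (Fin n)) : ℝ)
      + 2 * c 0 * c 1 * (∑ G : Cubic (Fin n), f2 o G)
      + (c 1) ^ 2 * ∑ G : Cubic (Fin n), (f2 o G) ^ 2 := by
    rw [dotProduct]
    have : ∀ G : Cubic (Fin n), T3 o c G * T3 o c G =
        (c 0) ^ 2 + 2 * c 0 * c 1 * f2 o G + (c 1) ^ 2 * (f2 o G) ^ 2 := by
      intro G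
      rw [T3_apply]
      ring
    rw [Finset.sum_congr rfl (fun G _ => this G), Finset.sum_add_distrib, Finset.sum_add_distrib,
      ← Finset.mul_sum, ← Finset.mul_sum, Finset.sum_const, Finset.card_univ, nsmul_eq_mul]
    ring
  have hN' : (0 : ℝ) < (Fintype.card (Cubic (Fin n)) : ℝ) := by exact_mod_cast hN
  rw [hX]
  set S := ∑ G : Cubic (Fin n), f2 o G
  set F := ∑ G : Cubic (Fin n), (f2 o G) ^ 2
  set N := (Fintype.card (Cubic (Fin n)) : ℝ)
  rw [mul_div_assoc', div_le_iff₀ hn]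
  have h1 : N * ((c 1) ^ 2 * F * ((n : ℝ) - 14)) ≤
      N * (((c 0) ^ 2 * N + 2 * c 0 * c 1 * S + (c 1) ^ 2 * F) * ((n : ℝ) + 4)) := by
    have e1 : N * (((c 0) ^ 2 * N + 2 * c 0 * c 1 * S + (c 1) ^ 2 * F) * ((n : ℝ) + 4)) =
        ((n : ℝ) + 4) * (c 0 * N + c 1 * S) ^ 2
          + (c 1) ^ 2 * (((n : ℝ) + 4) * (N * F) - ((n : ℝ) + 4) * S ^ 2) := by ring
    have e2 : 0 ≤ ((n : ℝ) + 4) * (c 0 * N + c 1 * S) ^ 2 := mul_nonneg hn.le (sq_nonneg _)
    have e3 : (c 1) ^ 2 * (((n : ℝ) + 4) * S ^ 2) ≤ (c 1) ^ 2 * (18 * N * F) :=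
      mul_le_mul_of_nonneg_left hcs (sq_nonneg _)
    rw [e1]
    nlinarith
  exact le_of_mul_le_mul_left h1 hN'

theorem lam_two [DecidableEq (Cubic (Fin n))] [DecidableRel (GammaL n).Adj] (h16 : 16 ≤ n)
    (o : Fin n) (hne : ∃ G : Cubic (Fin n), G.m o o = 1) :
    2 ≤ eigCount (GammaL n) (138 / 89 * (((n : ℝ) + 4) / ((n : ℝ) - 14))) := by
  have h3 : 3 ≤ n := by omega
  have h16' : (16 : ℝ) ≤ n := by exact_mod_cast h16
  have ha : (0 : ℝ) < (n : ℝ) - 14 := by linarith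
  have hb : (0 : ℝ) < (n : ℝ) + 4 := by linarith
  obtain ⟨G0, hG0⟩ := hne
  have hN : 0 < Fintype.card (Cubic (Fin n)) := Fintype.card_pos_iff.2 ⟨G0⟩
  have hF : 0 < ∑ G : Cubic (Fin n), (f2 o G) ^ 2 := by
    refine Finset.sum_pos' (fun G _ => sq_nonneg _) ⟨G0, Finset.mem_univ _, ?_⟩
    have : f2 o G0 = 9 / 2 := by
      unfold f2 de; rw [hG0, if_neg (noDE o G0 hG0)]; norm_num
    rw [this]; norm_num
  have hr : (0 : ℝ) < ((n : ℝ) - 14) / ((n : ℝ) + 4) := div_pos ha hb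
  have := card_eig_le ((GammaL n).lapMatrix ℝ) ((GammaL n).isHermitian_lapMatrix ℝ) (T3 o)
    (138 / 89 * (((n : ℝ) + 4) / ((n : ℝ) - 14)))
    (by
      intro c hc
      have h1 := norm_T3 h16 o c hN
      rw [hc, dotProduct_zero] at h1
      have h2 : c 1 = 0 := by
        by_contra hne
        have : 0 < (c 1) ^ 2 := by positivity
        have := mul_pos (mul_pos this hF) hr
        linarith
      have h4 : T3 o c G0 = 0 := by rw [hc]; rfl
      rw [T3_apply, h2, zero_mul, add_zero] at h4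
      ext i
      fin_cases i
      · exact h4
      · exact h2)
    (by
      intro c
      rw [lap_quad']
      have h1 := norm_T3 h16 o c hN
      have h2 := energy3 h3 o
      have h4 := norm_f2 o
      have h5 := de_le h3 o
      have e1 : ∑ x : Cubic (Fin n) × Cubic (Fin n), ad x * (T3 o c x.1 - T3 o c x.2) ^ 2 =
          (c 1) ^ 2 * ∑ x : Cubic (Fin n) × Cubic (Fin n), ad x * (f2 o x.1 - f2 o x.2) ^ 2 := by
        rw [Finset.mul_sum]
        refine Finset.sum_congr rfl (fun x _ => ?_)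
        rw [T3_apply, T3_apply]
        ring
      rw [e1]
      set F := ∑ G : Cubic (Fin n), (f2 o G) ^ 2
      set D := ∑ G : Cubic (Fin n), de o G
      set L := ∑ G : Cubic (Fin n), (G.m o o : ℝ)
      have e2 : 69 / 2 * D ≤ 276 / 89 * F := by rw [h4]; linarith
      have e3 : (c 1) ^ 2 * (∑ x : Cubic (Fin n) × Cubic (Fin n),
          ad x * (f2 o x.1 - f2 o x.2) ^ 2) ≤ (c 1) ^ 2 * (276 / 89 * F) :=
        mul_le_mul_of_nonneg_left (h2.trans e2) (sq_nonneg _)
      have e4 : 138 / 89 * (((n : ℝ) + 4) / ((n : ℝ) - 14)) *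
          ((c 1) ^ 2 * F * (((n : ℝ) - 14) / ((n : ℝ) + 4))) = 138 / 89 * ((c 1) ^ 2 * F) := by
        field_simp
      have e5 : 0 ≤ 138 / 89 * (((n : ℝ) + 4) / ((n : ℝ) - 14)) := by positivity
      have e6 := mul_le_mul_of_nonneg_left h1 e5
      rw [e4] at e6
      linarith)
  simpa [eigCount] using this

end

theorem mainTwo (n : ℕ) (hn : Even n) (h16 : 16 ≤ n) [Fintype (Cubic (Fin n))]
    [DecidableEq (Cubic (Fin n))] [DecidableRel (GammaL n).Adj] :
    2 ≤ eigCount (GammaL n) (138 / 89 * (((n : ℝ) + 4) / ((n : ℝ) - 14))) := by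
  obtain ⟨k, hk⟩ := hn
  haveI : NeZero k := ⟨by omega⟩
  haveI : Fact (1 < k) := ⟨by omega⟩
  have hcard : Fintype.card (ZMod k × Bool) = n := by
    rw [Fintype.card_prod, ZMod.card, Fintype.card_bool]
    omega
  let e : (ZMod k × Bool) ≃ Fin n := Fintype.equivFinOfCardEq hcard
  exact lam_two h16 (e (0, true)) ⟨tr e (Sun k), by simp [tr, Sun_t]⟩

end Pool.Agent.WHC
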